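import Pool.Agent.H460.MP.Curves2

/-! The constant is an area; limits. -/

set_option autoImplicit false

open Finset MeasureTheory Filter Topology

namespace Pool.Agent.H460.MP

theorem section_vol (x : ℝ) : volume {y : ℝ | |y ^ 2 - x ^ 3| ≤ 1} = ENNReal.ofReal (2 * g x) := by
  rcases lt_or_ge (x ^ 3 + 1) 0 with h | h
  · have e : {y : ℝ | |y ^ 2 - x ^ 3| ≤ 1} = ∅ := by
      rw [Set.eq_empty_iff_forall_notMem]
      intro y hy
      have hy' : |y ^ 2 - x ^ 3| ≤ 1 := hy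
      have h2 := (abs_le.mp hy').2
      nlinarith [sq_nonneg y]
    have hg : g x = 0 := by
      unfold g
      rw [Real.sqrt_eq_zero_of_nonpos h.le, Real.sqrt_eq_zero_of_nonpos (by linarith)]
      ring
    rw [e, hg]
    simp
  · set A := √(x ^ 3 + 1) with hA
    set B := √(x ^ 3 - 1) with hB
    have hA0 : 0 ≤ A := Real.sqrt_nonneg _
    have hB0 : 0 ≤ B := Real.sqrt_nonneg _
    have hBA : B ≤ A := Real.sqrt_le_sqrt (by linarith)
    have e : {y : ℝ | |y ^ 2 - x ^ 3| ≤ 1} = Set.Icc (-A) A \ Set.Ioo (-B) B := by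
      ext y
      have m1 : y ∈ Set.Icc (-A) A ↔ y ^ 2 ≤ x ^ 3 + 1 := by
        rw [Set.mem_Icc, ← abs_le]
        constructor
        · intro h1
          have := pow_le_pow_left₀ (abs_nonneg _) h1 2
          rwa [sq_abs, Real.sq_sqrt h] at this
        · intro h1; exact Real.abs_le_sqrt h1
      have m2 : y ∈ Set.Ioo (-B) B ↔ y ^ 2 < x ^ 3 - 1 := by
        rw [Set.mem_Ioo, ← abs_lt, hB, Real.lt_sqrt (abs_nonneg _), sq_abs]
      rw [Set.mem_sdiff, m1, m2]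
      have : y ∈ {y : ℝ | |y ^ 2 - x ^ 3| ≤ 1} ↔ |y ^ 2 - x ^ 3| ≤ 1 := Iff.rfl
      rw [this, abs_le, not_lt]
      constructor
      · rintro ⟨h1, h2⟩; exact ⟨by linarith, by linarith⟩
      · rintro ⟨h1, h2⟩; exact ⟨by linarith, by linarith⟩
    have hsub : Set.Ioo (-B) B ⊆ Set.Icc (-A) A := by
      intro y hy
      exact ⟨by linarith [hy.1], by linarith [hy.2]⟩
    rw [e, measure_sdiff hsub measurableSet_Ioo.nullMeasurableSet (by simp), Real.volume_Icc,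
      Real.volume_Ioo, ← ENNReal.ofReal_sub _ (by linarith)]
    congr 1
    unfold g
    ring

theorem area_eq : (volume {p : ℝ × ℝ | |p.2 ^ 2 - p.1 ^ 3| ≤ 1}).toReal = c := by
  have hclosed : IsClosed {p : ℝ × ℝ | |p.2 ^ 2 - p.1 ^ 3| ≤ 1} :=
    isClosed_le (by fun_prop) (by fun_prop)
  have h1 : volume {p : ℝ × ℝ | |p.2 ^ 2 - p.1 ^ 3| ≤ 1}
      = ∫⁻ x : ℝ, ENNReal.ofReal (2 * g x) := by
    rw [Measure.volume_eq_prod, Measure.prod_apply hclosed.measurableSet]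
    refine lintegral_congr ?_
    intro x
    exact section_vol x
  rw [h1, ← ofReal_integral_eq_lintegral_ofReal (g_int.const_mul 2)
    (Eventually.of_forall fun x => by have := g_nonneg x; positivity),
    ENNReal.toReal_ofReal, integral_const_mul, c]
  exact integral_nonneg (fun x => by have := g_nonneg x; positivity)

theorem lim_aux (θ : ℝ) (h1 : 1 / 3 < θ) (h2 : θ < 8 / 3) (f : ℝ → ℝ) (l a : ℝ) (ha : a ≤ 4 / 5)
    (hf : ∀ eps : ℝ, 0 < eps → ∃ C : ℝ, 0 < C ∧ ∀ K X : ℝ, 1 ≤ K → K ^ ((1 : ℝ) / 3) ≤ X →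
      X = K ^ θ → |f K - l * K ^ ((5 : ℝ) / 6)|
        ≤ C * (K ^ (a + eps) + K ^ ((1 : ℝ) / 6) * X ^ (1 / 4 + eps) + K / √X)) :
    Tendsto (fun K => f K / K ^ ((5 : ℝ) / 6)) atTop (𝓝 l) := by
  set eps := min (1 / 60) ((8 / 3 - θ) / 24) with heps
  have he0 : 0 < eps := lt_min (by norm_num) (by linarith)
  have he1 : eps ≤ 1 / 60 := min_le_left _ _
  have he2 : eps ≤ (8 / 3 - θ) / 24 := min_le_right _ _
  obtain ⟨C, hC, h⟩ := hf eps he0
  have hexp2 : 1 / 6 + θ * (1 / 4 + eps) - 5 / 6 < 0 := by nlinarith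
  have t1 : Tendsto (fun K : ℝ => C * (K ^ (a + eps - 5 / 6) +
      K ^ (1 / 6 + θ * (1 / 4 + eps) - 5 / 6) + K ^ (1 - θ / 2 - 5 / 6))) atTop (𝓝 0) := by
    have p1 : Tendsto (fun K : ℝ => K ^ (a + eps - 5 / 6)) atTop (𝓝 0) := by
      have := tendsto_rpow_neg_atTop (y := -(a + eps - 5 / 6)) (by linarith)
      simpa using this
    have p2 : Tendsto (fun K : ℝ => K ^ (1 / 6 + θ * (1 / 4 + eps) - 5 / 6)) atTop (𝓝 0) := by
      have := tendsto_rpow_neg_atTop (y := -(1 / 6 + θ * (1 / 4 + eps) - 5 / 6)) (by linarith)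
      rwa [neg_neg] at this
    have p3 : Tendsto (fun K : ℝ => K ^ (1 - θ / 2 - 5 / 6)) atTop (𝓝 0) := by
      have := tendsto_rpow_neg_atTop (y := -(1 - θ / 2 - 5 / 6)) (by linarith)
      rwa [neg_neg] at this
    have := (((p1.add p2).add p3).const_mul C)
    simpa using this
  rw [← tendsto_sub_nhds_zero_iff]
  refine squeeze_zero_norm' ?_ t1
  filter_upwards [eventually_ge_atTop 1] with K hK
  have hK0 : 0 < K := by linarith
  have hp : 0 < K ^ ((5 : ℝ) / 6) := Real.rpow_pos_of_pos hK0 _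
  have hX : K ^ ((1 : ℝ) / 3) ≤ K ^ θ := Real.rpow_le_rpow_of_exponent_le hK h1.le
  have h3 := h K (K ^ θ) hK hX rfl
  have e1 : f K / K ^ ((5 : ℝ) / 6) - l = (f K - l * K ^ ((5 : ℝ) / 6)) / K ^ ((5 : ℝ) / 6) := by
    field_simp
  rw [e1, Real.norm_eq_abs, abs_div, abs_of_pos hp, div_le_iff₀ hp]
  refine h3.trans (le_of_eq ?_)
  have e2 : K ^ ((1 : ℝ) / 6) * (K ^ θ) ^ (1 / 4 + eps) = K ^ (1 / 6 + θ * (1 / 4 + eps)) := by
    rw [← Real.rpow_mul hK0.le, ← Real.rpow_add hK0]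
  have e3 : K / √(K ^ θ) = K ^ (1 - θ / 2) := by
    rw [Real.sqrt_eq_rpow, ← Real.rpow_mul hK0.le]
    have := Real.rpow_sub hK0 1 (θ * (1 / 2))
    rw [Real.rpow_one] at this
    rw [← this]
    ring_nf
  rw [e2, e3, mul_assoc, add_mul, add_mul, ← Real.rpow_add hK0, ← Real.rpow_add hK0,
    ← Real.rpow_add hK0]
  ring_nf

end Pool.Agent.H460.MP
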