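import Pool.Graph.R_seed8.R418.C3.C

/-! The integral points with `x > 4 √K`. -/

set_option autoImplicit false

open Finset

namespace Pool.Agent.H460.MP

open Pool.Agent.R418.C3 in
theorem piece (eps : ℝ) (he : 0 < eps) : ∃ C : ℝ, 0 < C ∧ ∀ K X Y : ℝ, 1 ≤ K → 4 * √K ≤ Y →
    Y ≤ X → ∀ S : Finset (ℤ × ℤ), (∀ e ∈ S, Near Y K e) →
      (S.card : ℝ) ≤ C * ((K ^ ((7 : ℝ) / 9) + K ^ ((1 : ℝ) / 6) * X ^ ((1 : ℝ) / 4)) * X ^ eps) := by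
  obtain ⟨C1, hC1, h1⟩ := cub eps he
  obtain ⟨C2, hC2, h2⟩ := qua eps he
  refine ⟨5 * C1 + C2, by positivity, ?_⟩
  intro K X Y hK hY hYX S hS
  have hK0 : 0 < K := by linarith
  have hsK : 1 ≤ √K := Real.one_le_sqrt.mpr hK
  have hY1 : 1 ≤ Y := by linarith
  have hY0 : 0 < Y := by linarith
  have hX0 : 0 < X := by linarith
  have hXe : Y ^ eps ≤ X ^ eps := Real.rpow_le_rpow hY0.le hYX he.le
  have hXp : 0 < X ^ eps := Real.rpow_pos_of_pos hX0 _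
  have hYp : 0 < Y ^ eps := Real.rpow_pos_of_pos hY0 _
  have p79 : 0 < K ^ ((7 : ℝ) / 9) := Real.rpow_pos_of_pos hK0 _
  have p16 : 0 < K ^ ((1 : ℝ) / 6) := Real.rpow_pos_of_pos hK0 _
  have pX4 : 0 < X ^ ((1 : ℝ) / 4) := Real.rpow_pos_of_pos hX0 _
  have hKK : K ≤ K ^ ((14 : ℝ) / 9) := by
    calc K = K ^ (1 : ℝ) := (Real.rpow_one K).symm
      _ ≤ _ := Real.rpow_le_rpow_of_exponent_le hK (by norm_num)
  rcases le_or_gt (16 * K ^ ((14 : ℝ) / 9)) Y with hc | hc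
  · have h := h2 Y K hK (by linarith) S hS
    have t1 : Y ^ (1 / 4 + eps) ≤ X ^ ((1 : ℝ) / 4) * X ^ eps := by
      rw [← Real.rpow_add hX0]
      exact Real.rpow_le_rpow hY0.le hYX (by positivity)
    have t2 : Y ^ (-(1 / 4) + eps) * K ^ ((7 : ℝ) / 6) ≤ K ^ ((7 : ℝ) / 9) * X ^ eps := by
      rw [Real.rpow_add hY0]
      have : Y ^ (-(1 / 4) : ℝ) ≤ K ^ (-(7 / 18) : ℝ) := by
        have h5 : K ^ ((14 : ℝ) / 9) ≤ Y := by
          have : 0 < K ^ ((14 : ℝ) / 9) := Real.rpow_pos_of_pos hK0 _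
          linarith
        have h6 : Y ^ (-(1 / 4) : ℝ) ≤ (K ^ ((14 : ℝ) / 9)) ^ (-(1 / 4) : ℝ) :=
          Real.rpow_le_rpow_of_nonpos (Real.rpow_pos_of_pos hK0 _) h5 (by norm_num)
        rwa [← Real.rpow_mul hK0.le, show (14 / 9 * -(1 / 4) : ℝ) = -(7 / 18) by norm_num] at h6
      calc Y ^ (-(1 / 4) : ℝ) * Y ^ eps * K ^ ((7 : ℝ) / 6)
          ≤ K ^ (-(7 / 18) : ℝ) * X ^ eps * K ^ ((7 : ℝ) / 6) := by gcongr
        _ = (K ^ (-(7 / 18) : ℝ) * K ^ ((7 : ℝ) / 6)) * X ^ eps := by ring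
        _ = K ^ ((7 : ℝ) / 9) * X ^ eps := by
            rw [← Real.rpow_add hK0]; norm_num
    calc (S.card : ℝ) ≤ _ := h
      _ ≤ C2 * (X ^ ((1 : ℝ) / 4) * X ^ eps * K ^ ((1 : ℝ) / 6) + K ^ ((7 : ℝ) / 9) * X ^ eps) := by
          gcongr
      _ = C2 * ((K ^ ((7 : ℝ) / 9) + K ^ ((1 : ℝ) / 6) * X ^ ((1 : ℝ) / 4)) * X ^ eps) := by ring
      _ ≤ _ := by gcongr; linarith
  · have h := h1 Y K hK hY S hS
    have t1 : Y ^ ((1 : ℝ) / 2) ≤ 4 * K ^ ((7 : ℝ) / 9) := by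
      have : Y ^ ((1 : ℝ) / 2) ≤ (16 * K ^ ((14 : ℝ) / 9)) ^ ((1 : ℝ) / 2) :=
        Real.rpow_le_rpow hY0.le hc.le (by norm_num)
      rw [Real.mul_rpow (by norm_num) (Real.rpow_nonneg hK0.le _), ← Real.rpow_mul hK0.le,
        ← Real.sqrt_eq_rpow 16, show (16 : ℝ) = 4 ^ 2 by norm_num,
        Real.sqrt_sq (by norm_num : (0 : ℝ) ≤ 4)] at this
      rwa [show (14 / 9 * (1 / 2) : ℝ) = 7 / 9 by norm_num] at this
    have t2 : K / Y * Y ^ ((1 : ℝ) / 2) ≤ K ^ ((7 : ℝ) / 9) := by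
      have e1 : K / Y * Y ^ ((1 : ℝ) / 2) = K / √Y := by
        rw [← Real.sqrt_eq_rpow]
        have : √Y * √Y = Y := Real.mul_self_sqrt hY0.le
        have h0 : 0 < √Y := Real.sqrt_pos.mpr hY0
        rw [div_mul_eq_mul_div, div_eq_div_iff hY0.ne' h0.ne']
        nlinarith
      have e2 : K ^ ((1 : ℝ) / 4) ≤ √Y := by
        have h3 : √(√K) ≤ √Y := Real.sqrt_le_sqrt (by linarith)
        have h4 : √(√K) = K ^ ((1 : ℝ) / 4) := by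
          rw [Real.sqrt_eq_rpow, Real.sqrt_eq_rpow, ← Real.rpow_mul hK0.le]
          norm_num
        rwa [h4] at h3
      have e3 : K / √Y ≤ K / K ^ ((1 : ℝ) / 4) :=
        div_le_div_of_nonneg_left hK0.le (Real.rpow_pos_of_pos hK0 _) e2
      have e4 : K / K ^ ((1 : ℝ) / 4) = K ^ ((3 : ℝ) / 4) := by
        have := Real.rpow_sub hK0 1 ((1 : ℝ) / 4)
        rw [Real.rpow_one] at this
        rw [← this]
        norm_num
      rw [e1]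
      refine e3.trans ?_
      rw [e4]
      exact Real.rpow_le_rpow_of_exponent_le hK (by norm_num)
    calc (S.card : ℝ) ≤ C1 * (1 + K / Y) * Y ^ (1 / 2 + eps) := h
      _ = C1 * ((Y ^ ((1 : ℝ) / 2) + K / Y * Y ^ ((1 : ℝ) / 2)) * Y ^ eps) := by
          rw [Real.rpow_add hY0]; ring
      _ ≤ C1 * ((4 * K ^ ((7 : ℝ) / 9) + K ^ ((7 : ℝ) / 9)) * X ^ eps) := by gcongr
      _ = 5 * C1 * (K ^ ((7 : ℝ) / 9) * X ^ eps) := by ring
      _ ≤ (5 * C1 + C2) * ((K ^ ((7 : ℝ) / 9) + K ^ ((1 : ℝ) / 6) * X ^ ((1 : ℝ) / 4)) * X ^ eps) := by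
          have h5 : K ^ ((7 : ℝ) / 9) ≤ K ^ ((7 : ℝ) / 9) + K ^ ((1 : ℝ) / 6) * X ^ ((1 : ℝ) / 4) := by
            have : 0 ≤ K ^ ((1 : ℝ) / 6) * X ^ ((1 : ℝ) / 4) := by positivity
            linarith
          have h6 : 5 * C1 ≤ 5 * C1 + C2 := by linarith
          gcongr

open Pool.Agent.R418.C3 in
theorem big (eps : ℝ) (he : 0 < eps) : ∃ C : ℝ, 0 < C ∧ ∀ K X : ℝ, 1 ≤ K → 1 ≤ X →
    ∀ S : Finset (ℤ × ℤ), (∀ e ∈ S, 4 * √K ≤ (e.1 : ℝ) ∧ (e.1 : ℝ) ≤ X ∧ 0 < e.2 ∧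
      e.1 ^ 3 ≠ e.2 ^ 2 ∧ |(e.1 : ℝ) ^ 3 - (e.2 : ℝ) ^ 2| ≤ K) →
      (S.card : ℝ) ≤ C * (K ^ (7 / 9 + eps) + K ^ ((1 : ℝ) / 6) * X ^ (1 / 4 + eps)) := by
  classical
  set e1 := eps / 6 with he1
  have he1p : 0 < e1 := by positivity
  obtain ⟨C, hC, h⟩ := piece e1 he1p
  refine ⟨2 * (1 / e1 + 1) * C, by positivity, ?_⟩
  intro K X hK hX S hS
  have hK0 : 0 < K := by linarith
  have hX0 : 0 < X := by linarith
  have hsK : 1 ≤ √K := Real.one_le_sqrt.mpr hK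
  have hXp : 0 < X ^ e1 := Real.rpow_pos_of_pos hX0 _
  have hX1e : 1 ≤ X ^ e1 := Real.one_le_rpow hX he1p.le
  have p79 : 0 < K ^ ((7 : ℝ) / 9) := Real.rpow_pos_of_pos hK0 _
  have p16 : 0 < K ^ ((1 : ℝ) / 6) := Real.rpow_pos_of_pos hK0 _
  have pX4 : 0 < X ^ ((1 : ℝ) / 4) := Real.rpow_pos_of_pos hX0 _
  set J : ℕ := ⌊Real.log X⌋₊ + 1 with hJ
  have hJX : X < 4 ^ J := by
    have h1 : Real.log X < J := by
      rw [hJ]; push_cast; exact Nat.lt_floor_add_one _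
    have h2 : X < Real.exp J := by
      rw [← Real.exp_log hX0]
      exact Real.exp_lt_exp.mpr h1
    have h3 : Real.exp J ≤ 4 ^ J := by
      rw [← Real.exp_one_pow]
      have : Real.exp 1 ≤ 4 := by linarith [Real.exp_one_lt_d9]
      gcongr
    linarith
  have hJle : (J : ℝ) ≤ (1 / e1 + 1) * X ^ e1 := by
    have h1 := Nat.floor_le (Real.log_nonneg hX)
    have h2 := Real.log_le_rpow_div hX0.le he1p
    rw [hJ]
    push_cast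
    have : X ^ e1 / e1 = 1 / e1 * X ^ e1 := by ring
    linarith
  set B := C * ((K ^ ((7 : ℝ) / 9) + K ^ ((1 : ℝ) / 6) * X ^ ((1 : ℝ) / 4)) * X ^ e1) with hB
  have hB0 : 0 ≤ B := by positivity
  set T : ℕ → Finset (ℤ × ℤ) := fun j => S.filter (fun e => 4 * √K * 4 ^ j ≤ (e.1 : ℝ) ∧
    (e.1 : ℝ) ≤ 4 * (4 * √K * 4 ^ j)) with hT
  have hTj : ∀ j ∈ range J, (T j).card ≤ ⌊B⌋₊ := by
    intro j _
    apply Nat.le_floor
    rcases (T j).eq_empty_or_nonempty with h0 | ⟨e, he⟩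
    · rw [h0]; simpa using hB0
    · have hY : 4 * √K ≤ 4 * √K * 4 ^ j := by
        have : (1 : ℝ) ≤ 4 ^ j := one_le_pow₀ (by norm_num)
        nlinarith
      have he' := mem_filter.mp he
      have hYX : 4 * √K * 4 ^ j ≤ X := he'.2.1.trans (hS e he'.1).2.1
      refine h K X (4 * √K * 4 ^ j) hK hY hYX (T j) ?_
      intro u hu
      have hu' := mem_filter.mp hu
      obtain ⟨_, _, h3, h4, h5⟩ := hS u hu'.1
      exact ⟨hu'.2.1, hu'.2.2, h3, h4, h5⟩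
  have hcov : S ⊆ (range J).biUnion T := by
    intro e he
    obtain ⟨h1, h2, _⟩ := hS e he
    have hx1 : 1 ≤ (e.1 : ℝ) / (4 * √K) := by
      rw [le_div_iff₀ (by positivity)]; linarith
    obtain ⟨j, hj1, hj2⟩ := exists_nat_pow_near hx1 (by norm_num : (1 : ℝ) < 4)
    rw [le_div_iff₀ (by positivity)] at hj1
    rw [div_lt_iff₀ (by positivity)] at hj2
    rw [mem_biUnion]
    refine ⟨j, ?_, mem_filter.mpr ⟨he, by linarith, by rw [pow_succ] at hj2; linarith⟩⟩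
    rw [mem_range]
    by_contra hc
    push Not at hc
    have h5 : (4 : ℝ) ^ J ≤ 4 ^ j := pow_le_pow_right₀ (by norm_num) hc
    have h6 : (4 : ℝ) ^ j ≤ 4 ^ j * (4 * √K) := by
      have : (0 : ℝ) < 4 ^ j := by positivity
      nlinarith
    linarith
  have h1 : (S.card : ℝ) ≤ J * B := by
    have h2 := (card_le_card hcov).trans (card_biUnion_le_card_mul _ _ _ hTj)
    rw [card_range] at h2
    have h3 : (S.card : ℝ) ≤ (J : ℝ) * (⌊B⌋₊ : ℝ) := by exact_mod_cast h2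
    have h4 : (⌊B⌋₊ : ℝ) ≤ B := Nat.floor_le hB0
    exact h3.trans (by gcongr)
  have hee : X ^ e1 * X ^ e1 = X ^ (2 * e1) := by
    rw [← Real.rpow_add hX0]; ring_nf
  have h2 : (J : ℝ) * B ≤ (1 / e1 + 1) * C * (K ^ ((7 : ℝ) / 9) * X ^ (2 * e1)
      + K ^ ((1 : ℝ) / 6) * (X ^ ((1 : ℝ) / 4) * X ^ (2 * e1))) := by
    calc (J : ℝ) * B ≤ ((1 / e1 + 1) * X ^ e1) * B := by gcongr
      _ = (1 / e1 + 1) * C * ((K ^ ((7 : ℝ) / 9) + K ^ ((1 : ℝ) / 6) * X ^ ((1 : ℝ) / 4))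
          * (X ^ e1 * X ^ e1)) := by rw [hB]; ring
      _ = _ := by rw [hee]; ring
  have h3 : X ^ ((1 : ℝ) / 4) * X ^ (2 * e1) ≤ X ^ (1 / 4 + eps) := by
    rw [← Real.rpow_add hX0]
    exact Real.rpow_le_rpow_of_exponent_le hX (by rw [he1]; linarith)
  have pXe : 0 < X ^ (1 / 4 + eps) := Real.rpow_pos_of_pos hX0 _
  have pKe : 0 < K ^ (7 / 9 + eps) := Real.rpow_pos_of_pos hK0 _
  have h4 : K ^ ((7 : ℝ) / 9) * X ^ (2 * e1)
      ≤ K ^ (7 / 9 + eps) + K ^ ((1 : ℝ) / 6) * X ^ (1 / 4 + eps) := by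
    rcases le_or_gt X (K ^ (3 : ℝ)) with hc | hc
    · have h5 : X ^ (2 * e1) ≤ K ^ eps := by
        calc X ^ (2 * e1) ≤ (K ^ (3 : ℝ)) ^ (2 * e1) :=
              Real.rpow_le_rpow hX0.le hc (by positivity)
          _ = K ^ eps := by
              rw [← Real.rpow_mul hK0.le]
              congr 1
              rw [he1]; ring
      have h6 : K ^ ((7 : ℝ) / 9) * X ^ (2 * e1) ≤ K ^ (7 / 9 + eps) := by
        rw [Real.rpow_add hK0]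
        gcongr
      have : 0 ≤ K ^ ((1 : ℝ) / 6) * X ^ (1 / 4 + eps) := by positivity
      linarith
    · have h5 : K ^ ((7 : ℝ) / 9) ≤ K ^ ((1 : ℝ) / 6) * X ^ ((1 : ℝ) / 4) := by
        have h7 : K ^ ((3 : ℝ) / 4) ≤ X ^ ((1 : ℝ) / 4) := by
          calc K ^ ((3 : ℝ) / 4) = (K ^ (3 : ℝ)) ^ ((1 : ℝ) / 4) := by
                rw [← Real.rpow_mul hK0.le]; norm_num
            _ ≤ _ := Real.rpow_le_rpow (by positivity) hc.le (by norm_num)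
        calc K ^ ((7 : ℝ) / 9) ≤ K ^ ((1 : ℝ) / 6 + 3 / 4) :=
              Real.rpow_le_rpow_of_exponent_le hK (by norm_num)
          _ = K ^ ((1 : ℝ) / 6) * K ^ ((3 : ℝ) / 4) := Real.rpow_add hK0 _ _
          _ ≤ _ := by gcongr
      have h6 : K ^ ((7 : ℝ) / 9) * X ^ (2 * e1) ≤ K ^ ((1 : ℝ) / 6) * X ^ (1 / 4 + eps) := by
        calc K ^ ((7 : ℝ) / 9) * X ^ (2 * e1)
            ≤ (K ^ ((1 : ℝ) / 6) * X ^ ((1 : ℝ) / 4)) * X ^ (2 * e1) := by gcongr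
          _ = K ^ ((1 : ℝ) / 6) * (X ^ ((1 : ℝ) / 4) * X ^ (2 * e1)) := by ring
          _ ≤ _ := by gcongr
      linarith
  have h7 : (1 / e1 + 1) * C * (K ^ ((7 : ℝ) / 9) * X ^ (2 * e1)
      + K ^ ((1 : ℝ) / 6) * (X ^ ((1 : ℝ) / 4) * X ^ (2 * e1)))
      ≤ (1 / e1 + 1) * C * ((K ^ (7 / 9 + eps) + K ^ ((1 : ℝ) / 6) * X ^ (1 / 4 + eps))
        + K ^ ((1 : ℝ) / 6) * X ^ (1 / 4 + eps)) := by gcongr
  have h8 : (1 / e1 + 1) * C * ((K ^ (7 / 9 + eps) + K ^ ((1 : ℝ) / 6) * X ^ (1 / 4 + eps))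
        + K ^ ((1 : ℝ) / 6) * X ^ (1 / 4 + eps))
      ≤ 2 * (1 / e1 + 1) * C * (K ^ (7 / 9 + eps) + K ^ ((1 : ℝ) / 6) * X ^ (1 / 4 + eps)) := by
    have : 0 ≤ (1 / e1 + 1) * C * K ^ (7 / 9 + eps) := by positivity
    linarith
  linarith

end Pool.Agent.H460.MP
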