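import Pool.Agent.H460.MP.Main
import Pool.Graph.R_seed8.H510R2.Div

/-! The number of Mordell curves with an integral point. -/

set_option autoImplicit false

open Finset

namespace Pool.Agent.H460.MP

/-- the integers `k`, `0 < |k| ≤ K`, such that `y² = x³ + k` has an integral point with `|x| ≤ X` -/
def curves (K X : ℝ) : Set ℤ :=
  {k | k ≠ 0 ∧ |(k : ℝ)| ≤ K ∧ ∃ x y : ℤ, |(x : ℝ)| ≤ X ∧ y ^ 2 = x ^ 3 + k}

/-- the `k` -/
def fk (p : ℤ × ℤ) : ℤ := p.2 ^ 2 - p.1 ^ 3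

/-- all the points -/
noncomputable def PP (K X : ℝ) : Finset (ℤ × ℤ) := (pts_finite K X 0 1 0 1).toFinset

theorem mem_PP (K X : ℝ) (p : ℤ × ℤ) : p ∈ PP K X ↔ |(p.1 : ℝ)| ≤ X ∧ p.2 ^ 2 ≠ p.1 ^ 3 ∧
    |(p.2 : ℝ) ^ 2 - (p.1 : ℝ) ^ 3| ≤ K := by
  unfold PP
  rw [Set.Finite.mem_toFinset]
  constructor
  · rintro ⟨_, _, h⟩; exact h
  · intro h
    exact ⟨by simpa using Int.modEq_one, by simpa using Int.modEq_one, h⟩

theorem curves_eq (K X : ℝ) : curves K X = ((PP K X).image fk : Finset ℤ) := by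
  ext k
  rw [mem_coe, mem_image]
  constructor
  · rintro ⟨h1, h2, x, y, h3, h4⟩
    refine ⟨(x, y), (mem_PP K X _).mpr ⟨h3, ?_, ?_⟩, ?_⟩
    · simp only; intro h; apply h1; linarith
    · simp only
      have : (y : ℝ) ^ 2 - (x : ℝ) ^ 3 = (k : ℝ) := by
        have : (y : ℝ) ^ 2 = (x : ℝ) ^ 3 + k := by exact_mod_cast h4
        linarith
      rwa [this]
    · simp only [fk]; linarith
  · rintro ⟨⟨x, y⟩, hp, rfl⟩
    obtain ⟨h1, h2, h3⟩ := (mem_PP K X _).mp hp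
    simp only at h1 h2 h3
    refine ⟨?_, ?_, x, y, h1, by simp only [fk]; ring⟩
    · simp only [fk]; intro h; apply h2; linarith
    · simp only [fk]; push_cast; exact h3

theorem curves_ncard (K X : ℝ) : (curves K X).ncard = ((PP K X).image fk).card := by
  rw [curves_eq, Set.ncard_coe_finset]

/-- the points with `y > 0` -/
noncomputable def Ppos (K X : ℝ) : Finset (ℤ × ℤ) := (PP K X).filter (fun p => 0 < p.2)

/-- the points with `y = 0` -/
noncomputable def Pzero (K X : ℝ) : Finset (ℤ × ℤ) := (PP K X).filter (fun p => p.2 = 0)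

theorem card_PP (K X : ℝ) : (PP K X).card = 2 * (Ppos K X).card + (Pzero K X).card := by
  classical
  set Pneg := (PP K X).filter (fun p => p.2 < 0) with hPneg
  have h1 : Pneg.card = (Ppos K X).card := by
    apply card_bij (fun p _ => (p.1, -p.2))
    · intro p hp
      have hp' := mem_filter.mp hp
      obtain ⟨h1, h2, h3⟩ := (mem_PP K X p).mp hp'.1
      refine mem_filter.mpr ⟨(mem_PP K X _).mpr ⟨h1, ?_, ?_⟩, ?_⟩
      · simpa using h2
      · simpa using h3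
      · simp only; linarith [hp'.2]
    · rintro ⟨x, y⟩ _ ⟨x', y'⟩ _ hh
      simp only [Prod.mk.injEq, neg_inj] at hh
      exact Prod.ext hh.1 hh.2
    · intro p hp
      have hp' := mem_filter.mp hp
      obtain ⟨h1, h2, h3⟩ := (mem_PP K X p).mp hp'.1
      refine ⟨(p.1, -p.2), mem_filter.mpr ⟨(mem_PP K X _).mpr ⟨h1, ?_, ?_⟩, ?_⟩, ?_⟩
      · simpa using h2
      · simpa using h3
      · simp only; linarith [hp'.2]
      · simp
  have h2 : (PP K X).card = (Ppos K X).card + ((PP K X).filter (fun p => ¬ 0 < p.2)).card :=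
    (card_filter_add_card_filter_not (s := PP K X) (fun p : ℤ × ℤ => 0 < p.2)).symm
  have h3 : ((PP K X).filter (fun p => ¬ 0 < p.2)).card = Pneg.card + (Pzero K X).card := by
    rw [← card_filter_add_card_filter_not (s := (PP K X).filter (fun p => ¬ 0 < p.2))
      (fun p : ℤ × ℤ => p.2 < 0), filter_filter, filter_filter]
    congr 2
    · ext p
      simp only [hPneg, mem_filter]
      constructor
      · rintro ⟨h, h4, h5⟩; exact ⟨h, h5⟩
      · rintro ⟨h, h4⟩; exact ⟨h, by omega, h4⟩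
    · ext p
      simp only [Pzero, mem_filter]
      constructor
      · rintro ⟨h, h4, h5⟩; exact ⟨h, by omega⟩
      · rintro ⟨h, h4⟩; exact ⟨h, by omega, by omega⟩
  omega

theorem card_Pzero (K X : ℝ) (hK : 1 ≤ K) : ((Pzero K X).card : ℝ) ≤ 3 * K ^ ((1 : ℝ) / 3) := by
  classical
  have hK0 : 0 < K := by linarith
  set κ := K ^ ((1 : ℝ) / 3) with hκ
  have hκ1 : 1 ≤ κ := Real.one_le_rpow hK (by norm_num)
  have hκ3 : κ ^ 3 = K := by
    rw [hκ, ← Real.rpow_natCast, ← Real.rpow_mul hK0.le]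
    norm_num
  have hsub : (Pzero K X) ⊆ (Icc ⌈-κ⌉ ⌊κ⌋).image (fun x : ℤ => (x, (0 : ℤ))) := by
    intro p hp
    have hp' := mem_filter.mp hp
    obtain ⟨_, _, h3⟩ := (mem_PP K X p).mp hp'.1
    rw [hp'.2] at h3
    have h4 : |(p.1 : ℝ)| ^ 3 ≤ κ ^ 3 := by
      rw [hκ3, ← abs_pow]
      have : |((0 : ℤ) : ℝ) ^ 2 - (p.1 : ℝ) ^ 3| = |(p.1 : ℝ) ^ 3| := by
        rw [Int.cast_zero, zero_pow (by norm_num), zero_sub, abs_neg]
      rwa [this] at h3
    have h5 : |(p.1 : ℝ)| ≤ κ := le_of_pow_le_pow_left₀ (by norm_num) (by linarith) h4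
    rw [mem_image]
    refine ⟨p.1, mem_Icc.mpr ⟨Int.ceil_le.mpr (abs_le.mp h5).1, Int.le_floor.mpr (abs_le.mp h5).2⟩, ?_⟩
    exact Prod.ext rfl hp'.2.symm
  have h1 := (card_le_card hsub).trans card_image_le
  have h2 := (abs_le.mp (cardIcc (-κ) κ (by linarith))).2
  have h3 : ((Pzero K X).card : ℝ) ≤ ((Icc ⌈-κ⌉ ⌊κ⌋).card : ℝ) := by exact_mod_cast h1
  linarith

theorem upper_curves (K X : ℝ) :
    2 * ((PP K X).image fk).card ≤ (PP K X).card + (Pzero K X).card := by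
  classical
  have h1 : (PP K X).image fk ⊆ (Ppos K X ∪ Pzero K X).image fk := by
    intro k hk
    obtain ⟨p, hp, rfl⟩ := mem_image.mp hk
    rw [mem_image]
    obtain ⟨h1, h2, h3⟩ := (mem_PP K X p).mp hp
    rcases lt_trichotomy p.2 0 with h | h | h
    · refine ⟨(p.1, -p.2), mem_union_left _ (mem_filter.mpr ⟨(mem_PP K X _).mpr ⟨h1, ?_, ?_⟩, ?_⟩),
        ?_⟩
      · simpa using h2
      · simpa using h3
      · simp only; linarith
      · simp [fk]
    · exact ⟨p, mem_union_right _ (mem_filter.mpr ⟨hp, h⟩), rfl⟩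
    · exact ⟨p, mem_union_left _ (mem_filter.mpr ⟨hp, h⟩), rfl⟩
  have h2 := (card_le_card h1).trans (card_image_le.trans (card_union_le _ _))
  have h3 := card_PP K X
  omega

/-- a set is not much larger than its image -/
theorem card_le_image {α β : Type} [DecidableEq α] [DecidableEq β] (S : Finset α) (f : α → β) :
    S.card ≤ (S.image f).card + ((S ×ˢ S).filter (fun q => q.1 ≠ q.2 ∧ f q.1 = f q.2)).card := by
  classical
  have hr : ∀ v : β, ∃ r : α → α, ∀ p ∈ S, f p = v → (r p ∈ S ∧ f (r p) = v ∧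
      ∀ q ∈ S, f q = v → r q = r p) := by
    intro v
    by_cases h : ∃ p ∈ S, f p = v
    · obtain ⟨p0, h0, h1⟩ := h
      exact ⟨fun _ => p0, fun p _ _ => ⟨h0, h1, fun _ _ _ => rfl⟩⟩
    · exact ⟨id, fun p hp hv => absurd ⟨p, hp, hv⟩ h⟩
  choose r hr using hr
  set ρ : α → α := fun p => r (f p) p with hρ
  have h1 : (S.filter (fun p => ρ p = p)).card ≤ (S.image f).card := by
    rw [← card_image_of_injOn (s := S.filter (fun p => ρ p = p)) (f := f)]
    · exact card_le_card (image_subset_image (filter_subset _ _))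
    · intro p hp q hq hpq
      have hp' := mem_filter.mp hp
      have hq' := mem_filter.mp hq
      rw [← hp'.2, ← hq'.2]
      simp only [hρ]
      have := (hr (f p) p hp'.1 rfl).2.2 q hq'.1 hpq.symm
      rw [← hpq, this]
  have h2 : (S.filter (fun p => ¬ ρ p = p)).card
      ≤ ((S ×ˢ S).filter (fun q => q.1 ≠ q.2 ∧ f q.1 = f q.2)).card := by
    rw [← card_image_of_injective (S.filter (fun p => ¬ ρ p = p)) (f := fun p => (p, ρ p))
      (fun p q h => (Prod.ext_iff.mp h).1)]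
    apply card_le_card
    intro q hq
    obtain ⟨p, hp, rfl⟩ := mem_image.mp hq
    have hp' := mem_filter.mp hp
    have := hr (f p) p hp'.1 rfl
    exact mem_filter.mpr ⟨mem_product.mpr ⟨hp'.1, this.1⟩, fun h => hp'.2 h.symm, this.2.1.symm⟩
  have h3 := card_filter_add_card_filter_not (s := S) (fun p : α => ρ p = p)
  omega

/-- the coincidences -/
theorem coinc (ε : ℝ) (hε : 0 < ε) : ∃ C : ℝ, 0 < C ∧ ∀ K X : ℝ, 1 ≤ X →
    ((((Ppos K X) ×ˢ (Ppos K X)).filter (fun q => q.1 ≠ q.2 ∧ fk q.1 = fk q.2)).card : ℝ)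
      ≤ C * X ^ (2 + ε) := by
  classical
  obtain ⟨C, hC, h⟩ := Pool.Agent.H510R2.divisor_bound (ε / 3) (by positivity)
  refine ⟨9 * (C * 2 ^ (ε / 3)), by positivity, ?_⟩
  intro K X hX
  have hX0 : 0 < X := by linarith
  set T := ((Ppos K X) ×ˢ (Ppos K X)).filter (fun q => q.1 ≠ q.2 ∧ fk q.1 = fk q.2) with hT
  set B : ℝ := C * (2 * X ^ 3) ^ (ε / 3) with hB
  have hB0 : 0 ≤ B := by positivity
  set I := Icc ⌈-X⌉ ⌊X⌋ with hI
  have hcI : (I.card : ℝ) ≤ 3 * X := by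
    have := (abs_le.mp (cardIcc (-X) X (by linarith))).2
    linarith
  have hmaps : ∀ q ∈ T, (q.1.1, q.2.1) ∈ I ×ˢ I := by
    intro q hq
    have hq' := mem_product.mp (mem_filter.mp hq).1
    have h1 := ((mem_PP K X _).mp (mem_filter.mp hq'.1).1).1
    have h2 := ((mem_PP K X _).mp (mem_filter.mp hq'.2).1).1
    rw [mem_product]
    exact ⟨mem_Icc.mpr ⟨Int.ceil_le.mpr (abs_le.mp h1).1, Int.le_floor.mpr (abs_le.mp h1).2⟩,
      mem_Icc.mpr ⟨Int.ceil_le.mpr (abs_le.mp h2).1, Int.le_floor.mpr (abs_le.mp h2).2⟩⟩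
  have hfib : ∀ v ∈ I ×ˢ I, (T.filter (fun q => (q.1.1, q.2.1) = v)).card ≤ ⌊B⌋₊ := by
    rintro ⟨x, x'⟩ hv
    rw [mem_product] at hv
    apply Nat.le_floor
    set D : ℤ := x ^ 3 - x' ^ 3 with hD
    have hx : |(x : ℝ)| ≤ X := by
      rw [abs_le]
      exact ⟨Int.ceil_le.mp (mem_Icc.mp hv.1).1, Int.le_floor.mp (mem_Icc.mp hv.1).2⟩
    have hx' : |(x' : ℝ)| ≤ X := by
      rw [abs_le]
      exact ⟨Int.ceil_le.mp (mem_Icc.mp hv.2).1, Int.le_floor.mp (mem_Icc.mp hv.2).2⟩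
    have hDle : (D.natAbs : ℝ) ≤ 2 * X ^ 3 := by
      rw [Nat.cast_natAbs, Int.cast_abs, hD]
      push_cast
      calc |(x : ℝ) ^ 3 - (x' : ℝ) ^ 3| ≤ |(x : ℝ) ^ 3| + |(x' : ℝ) ^ 3| := abs_sub _ _
        _ = |(x : ℝ)| ^ 3 + |(x' : ℝ)| ^ 3 := by rw [abs_pow, abs_pow]
        _ ≤ X ^ 3 + X ^ 3 := by gcongr
        _ = 2 * X ^ 3 := by ring
    -- members
    have hmem : ∀ q ∈ T.filter (fun q => (q.1.1, q.2.1) = (x, x')),
        q.1.1 = x ∧ q.2.1 = x' ∧ 0 < q.1.2 ∧ 0 < q.2.2 ∧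
        (q.1.2 - q.2.2) * (q.1.2 + q.2.2) = D ∧ D ≠ 0 := by
      intro q hq
      obtain ⟨hq1, hq2⟩ := mem_filter.mp hq
      obtain ⟨hq3, hq4, hq5⟩ := mem_filter.mp hq1
      rw [mem_product] at hq3
      have hy := (mem_filter.mp hq3.1).2
      have hy' := (mem_filter.mp hq3.2).2
      simp only [Prod.mk.injEq] at hq2
      have e1 : (q.1.2 - q.2.2) * (q.1.2 + q.2.2) = D := by
        simp only [fk] at hq5
        rw [hD, ← hq2.1, ← hq2.2]
        linarith
      refine ⟨hq2.1, hq2.2, hy, hy', e1, ?_⟩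
      intro h0
      rw [h0] at e1
      rcases mul_eq_zero.mp e1 with h1 | h1
      · have h2 : q.1.2 = q.2.2 := by linarith
        have h3 : x ^ 3 = x' ^ 3 := by rw [hD] at h0; linarith
        have h4 : x = x' := (Odd.strictMono_pow (by decide : Odd 3)).injective h3
        apply hq4
        exact Prod.ext (by rw [hq2.1, hq2.2, h4]) h2
      · linarith
    rcases (T.filter (fun q => (q.1.1, q.2.1) = (x, x'))).eq_empty_or_nonempty with he | ⟨q0, hq0⟩
    · rw [he]; simpa using hB0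
    have hD0 : D ≠ 0 := (hmem q0 hq0).2.2.2.2.2
    have hDn : 1 ≤ D.natAbs := Nat.one_le_iff_ne_zero.mpr (Int.natAbs_ne_zero.mpr hD0)
    have hinj : (T.filter (fun q => (q.1.1, q.2.1) = (x, x'))).card ≤ D.natAbs.divisors.card := by
      apply card_le_card_of_injOn (fun q => (q.1.2 + q.2.2).natAbs)
      · intro q hq
        obtain ⟨_, _, _, _, h5, _⟩ := hmem q hq
        simp only [mem_coe, Nat.mem_divisors]
        refine ⟨?_, by omega⟩
        rw [Int.natAbs_dvd_natAbs]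
        exact ⟨q.1.2 - q.2.2, by rw [← h5]; ring⟩
      · intro q hq r hr hqr
        obtain ⟨a1, a2, a3, a4, a5, _⟩ := hmem q hq
        obtain ⟨b1, b2, b3, b4, b5, _⟩ := hmem r hr
        simp only at hqr
        have e1 : q.1.2 + q.2.2 = r.1.2 + r.2.2 := by omega
        have e2 : q.1.2 - q.2.2 = r.1.2 - r.2.2 := by
          have : (q.1.2 - q.2.2) * (q.1.2 + q.2.2) = (r.1.2 - r.2.2) * (q.1.2 + q.2.2) := by
            rw [a5, e1, b5]
          exact mul_right_cancel₀ (by omega) this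
        have e3 : q.1.2 = r.1.2 := by omega
        have e4 : q.2.2 = r.2.2 := by omega
        exact Prod.ext (Prod.ext (a1.trans b1.symm) e3) (Prod.ext (a2.trans b2.symm) e4)
    have h2 := h D.natAbs hDn
    have h3 : (D.natAbs : ℝ) ^ (ε / 3) ≤ (2 * X ^ 3) ^ (ε / 3) :=
      Real.rpow_le_rpow (by positivity) hDle (by positivity)
    calc ((T.filter (fun q => (q.1.1, q.2.1) = (x, x'))).card : ℝ) ≤ (D.natAbs.divisors.card : ℝ) := by
          exact_mod_cast hinj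
      _ ≤ C * (D.natAbs : ℝ) ^ (ε / 3) := h2
      _ ≤ B := by rw [hB]; gcongr
  have h1 := card_le_mul_card_image_of_maps_to (s := T) (t := I ×ˢ I)
    (f := fun q => (q.1.1, q.2.1)) hmaps ⌊B⌋₊ hfib
  have h2 : (T.card : ℝ) ≤ (⌊B⌋₊ : ℝ) * ((I ×ˢ I).card : ℝ) := by exact_mod_cast h1
  have h3 : (⌊B⌋₊ : ℝ) ≤ B := Nat.floor_le hB0
  have h4 : ((I ×ˢ I).card : ℝ) ≤ 9 * X ^ 2 := by
    rw [card_product]; push_cast
    calc (I.card : ℝ) * I.card ≤ (3 * X) * (3 * X) := by gcongr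
      _ = 9 * X ^ 2 := by ring
  have h5 : B = C * 2 ^ (ε / 3) * X ^ ε := by
    rw [hB, Real.mul_rpow (by norm_num) (by positivity), ← Real.rpow_natCast, ← Real.rpow_mul hX0.le]
    rw [show ((3 : ℕ) : ℝ) * (ε / 3) = ε by push_cast; ring]
    ring
  calc (T.card : ℝ) ≤ (⌊B⌋₊ : ℝ) * ((I ×ˢ I).card : ℝ) := h2
    _ ≤ B * (9 * X ^ 2) := by gcongr
    _ = 9 * (C * 2 ^ (ε / 3)) * (X ^ (2 : ℝ) * X ^ ε) := by rw [h5, Real.rpow_two]; ring
    _ = _ := by rw [← Real.rpow_add hX0]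

end Pool.Agent.H460.MP
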