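import Pool.Agent.H460.MP.Curves

/-! The number of Mordell curves with an integral point, asymptotically. -/

set_option autoImplicit false

open Finset MeasureTheory Filter Topology

namespace Pool.Agent.H460.MP

/-- the integers `k`, `0 < |k| ≤ K`, such that `y² = x³ + k` has at least three integral points
with `|x| ≤ X` -/
def many (K X : ℝ) : Set ℤ :=
  {k | k ≠ 0 ∧ |(k : ℝ)| ≤ K ∧ 3 ≤ {p : ℤ × ℤ | |(p.1 : ℝ)| ≤ X ∧ p.2 ^ 2 = p.1 ^ 3 + k}.ncard}

theorem many_le (K X : ℝ) :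
    (many K X).ncard + 2 * ((PP K X).image fk).card ≤ (PP K X).card + (Pzero K X).card := by
  classical
  set F : ℤ → Finset (ℤ × ℤ) := fun k => (PP K X).filter (fun p => fk p = k) with hF
  have hfib : ∀ k : ℤ, k ≠ 0 → |(k : ℝ)| ≤ K →
      {p : ℤ × ℤ | |(p.1 : ℝ)| ≤ X ∧ p.2 ^ 2 = p.1 ^ 3 + k} = (F k : Set (ℤ × ℤ)) := by
    intro k hk0 hk
    ext p
    rw [mem_coe, hF, mem_filter, mem_PP]
    constructor
    · rintro ⟨h1, h2⟩
      refine ⟨⟨h1, fun h => hk0 (by linarith), ?_⟩, by simp only [fk]; linarith⟩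
      have : (p.2 : ℝ) ^ 2 - (p.1 : ℝ) ^ 3 = (k : ℝ) := by
        have : (p.2 : ℝ) ^ 2 = (p.1 : ℝ) ^ 3 + k := by exact_mod_cast h2
        linarith
      rwa [this]
    · rintro ⟨⟨h1, _, _⟩, h4⟩
      refine ⟨h1, ?_⟩
      simp only [fk] at h4
      linarith
  set I := (PP K X).image fk with hI
  have hfin : many K X ⊆ ((I.filter (fun k => 3 ≤ (F k).card) : Finset ℤ) : Set ℤ) := by
    rintro k ⟨h1, h2, h3⟩
    rw [hfib k h1 h2, Set.ncard_coe_finset] at h3
    rw [mem_coe, mem_filter]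
    refine ⟨?_, h3⟩
    obtain ⟨p, hp⟩ := card_pos.mp (by omega : 0 < (F k).card)
    obtain ⟨hp1, hp2⟩ := mem_filter.mp hp
    exact mem_image.mpr ⟨p, hp1, hp2⟩
  have h1 : (many K X).ncard ≤ (I.filter (fun k => 3 ≤ (F k).card)).card := by
    rw [← Set.ncard_coe_finset]
    exact Set.ncard_le_ncard hfin (Finset.finite_toSet _)
  have h2 : (I.filter (fun k => (F k).card = 1)).card ≤ (Pzero K X).card := by
    have : (I.filter (fun k => (F k).card = 1)) ⊆ (Pzero K X).image fk := by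
      intro k hk
      obtain ⟨hk1, hk2⟩ := mem_filter.mp hk
      obtain ⟨p, hp, rfl⟩ := mem_image.mp hk1
      rw [mem_image]
      refine ⟨p, mem_filter.mpr ⟨hp, ?_⟩, rfl⟩
      obtain ⟨q, hq⟩ := card_eq_one.mp hk2
      have m1 : p ∈ F (fk p) := mem_filter.mpr ⟨hp, rfl⟩
      have m2 : ((p.1, -p.2) : ℤ × ℤ) ∈ F (fk p) := by
        obtain ⟨h1, h2, h3⟩ := (mem_PP K X p).mp hp
        refine mem_filter.mpr ⟨(mem_PP K X _).mpr ⟨h1, by simpa using h2, by simpa using h3⟩, ?_⟩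
        simp [fk]
      rw [hq, mem_singleton] at m1 m2
      have := congrArg Prod.snd (m1.trans m2.symm)
      simp only at this
      omega
    exact (card_le_card this).trans card_image_le
  have h3 : (PP K X).card = ∑ k ∈ I, (F k).card := card_eq_sum_card_image fk (PP K X)
  have h4 : ∀ k ∈ I, 2 + (if 3 ≤ (F k).card then 1 else 0) ≤
      (F k).card + (if (F k).card = 1 then 1 else 0) := by
    intro k hk
    obtain ⟨p, hp, hpk⟩ := mem_image.mp hk
    have : 0 < (F k).card := card_pos.mpr ⟨p, mem_filter.mpr ⟨hp, hpk⟩⟩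
    split_ifs <;> omega
  have h5 := sum_le_sum h4
  rw [sum_add_distrib, sum_add_distrib, sum_const, smul_eq_mul, ← h3, ← card_filter,
    ← card_filter] at h5
  omega

theorem count_curves (eps : ℝ) (he : 0 < eps) : ∃ C : ℝ, 0 < C ∧ ∀ K X : ℝ, 1 ≤ K →
    K ^ ((1 : ℝ) / 3) ≤ X →
    |((curves K X).ncard : ℝ) - c / 2 * K ^ ((5 : ℝ) / 6)|
      ≤ C * (K ^ (4 / 5 + eps) + K ^ ((1 : ℝ) / 6) * X ^ (1 / 4 + eps) + K / √X) ∧
    ((many K X).ncard : ℝ)
      ≤ C * (K ^ (4 / 5 + eps) + K ^ ((1 : ℝ) / 6) * X ^ (1 / 4 + eps) + K / √X) := by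
  classical
  obtain ⟨C1, hC1, h1⟩ := asymp eps he
  obtain ⟨C2, hC2, h2⟩ := coinc eps he
  refine ⟨3 * C1 + 2 * C2 + 6, by positivity, ?_⟩
  intro K X hK hX
  have hK0 : 0 < K := by linarith
  have hκ1 : 1 ≤ K ^ ((1 : ℝ) / 3) := Real.one_le_rpow hK (by norm_num)
  have hX1 : 1 ≤ X := hκ1.trans hX
  have hX0 : 0 < X := by linarith
  set E := K ^ (4 / 5 + eps) + K ^ ((1 : ℝ) / 6) * X ^ (1 / 4 + eps) + K / √X with hE
  have q1 : 0 < K ^ (4 / 5 + eps) := Real.rpow_pos_of_pos hK0 _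
  have q2 : 0 < K ^ ((1 : ℝ) / 6) * X ^ (1 / 4 + eps) :=
    mul_pos (Real.rpow_pos_of_pos hK0 _) (Real.rpow_pos_of_pos hX0 _)
  have q3 : 0 < K / √X := by
    have := Real.sqrt_pos.mpr hX0
    positivity
  have h79 : K ^ (7 / 9 + eps) ≤ K ^ (4 / 5 + eps) :=
    Real.rpow_le_rpow_of_exponent_le hK (by linarith)
  have h13 : K ^ ((1 : ℝ) / 3) ≤ K ^ (4 / 5 + eps) :=
    Real.rpow_le_rpow_of_exponent_le hK (by linarith)
  have hN : ∀ Y : ℝ, ((pts K Y 0 1 0 1).ncard : ℝ) = ((PP K Y).card : ℝ) := by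
    intro Y
    rw [Set.ncard_eq_toFinset_card _ (pts_finite K Y 0 1 0 1)]
    rfl
  have hz := card_Pzero K X hK
  -- the upper bound
  have a1 := h1 K X hK hX 0 1 0 1 one_pos one_pos
  rw [hN, Int.cast_one, one_mul, div_one] at a1
  have a1' := abs_le.mp a1
  have a2 : C1 * (K ^ (7 / 9 + eps) + K ^ ((1 : ℝ) / 6) * X ^ (1 / 4 + eps) + K / √X) ≤ C1 * E := by
    rw [hE]; gcongr
  have u1 : 2 * (((PP K X).image fk).card : ℝ) ≤ ((PP K X).card : ℝ) + ((Pzero K X).card : ℝ) := by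
    exact_mod_cast upper_curves K X
  have h13E : K ^ ((1 : ℝ) / 3) ≤ E := by rw [hE]; linarith
  -- the lower bound
  set X0 := min X (K ^ ((2 : ℝ) / 5)) with hX0'
  have b0 : K ^ ((1 : ℝ) / 3) ≤ X0 :=
    le_min hX (Real.rpow_le_rpow_of_exponent_le hK (by norm_num))
  have b01 : 1 ≤ X0 := hκ1.trans b0
  have b00 : 0 < X0 := by linarith
  have hz0 := card_Pzero K X0 hK
  have b1 := h1 K X0 hK b0 0 1 0 1 one_pos one_pos
  rw [hN, Int.cast_one, one_mul, div_one] at b1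
  have b1' := abs_le.mp b1
  have b2 : K ^ ((1 : ℝ) / 6) * X0 ^ (1 / 4 + eps) ≤ K ^ ((1 : ℝ) / 6) * X ^ (1 / 4 + eps) := by
    gcongr
    exact min_le_left _ _
  have b3 : K / √X0 ≤ K / √X + K ^ (4 / 5 + eps) := by
    rcases min_cases X (K ^ ((2 : ℝ) / 5)) with h | h
    · rw [hX0', h.1]; linarith
    · rw [hX0', h.1]
      have e1 : K / √(K ^ ((2 : ℝ) / 5)) = K ^ ((4 : ℝ) / 5) := by
        rw [Real.sqrt_eq_rpow, ← Real.rpow_mul hK0.le]
        have := Real.rpow_sub hK0 1 ((2 : ℝ) / 5 * (1 / 2))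
        rw [Real.rpow_one] at this
        rw [← this]
        norm_num
      rw [e1]
      have : K ^ ((4 : ℝ) / 5) ≤ K ^ (4 / 5 + eps) :=
        Real.rpow_le_rpow_of_exponent_le hK (by linarith)
      linarith
  have b4 : X0 ^ (2 + eps) ≤ K ^ (4 / 5 + eps) := by
    calc X0 ^ (2 + eps) ≤ (K ^ ((2 : ℝ) / 5)) ^ (2 + eps) :=
          Real.rpow_le_rpow b00.le (min_le_right _ _) (by positivity)
      _ = K ^ (2 / 5 * (2 + eps)) := by rw [← Real.rpow_mul hK0.le]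
      _ ≤ _ := Real.rpow_le_rpow_of_exponent_le hK (by linarith)
  have b5 : ((Ppos K X0).card : ℝ) ≤ (((PP K X0).image fk).card : ℝ) + C2 * X0 ^ (2 + eps) := by
    have h5 := card_le_image (Ppos K X0) fk
    have h6 := h2 K X0 b01
    have h7 : (((Ppos K X0).image fk).card : ℝ) ≤ (((PP K X0).image fk).card : ℝ) := by
      exact_mod_cast card_le_card (image_subset_image (filter_subset _ _))
    have h8 : ((Ppos K X0).card : ℝ) ≤ (((Ppos K X0).image fk).card : ℝ) +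
        ((((Ppos K X0) ×ˢ (Ppos K X0)).filter (fun q => q.1 ≠ q.2 ∧ fk q.1 = fk q.2)).card : ℝ) := by
      exact_mod_cast h5
    linarith
  have b6 : (((PP K X0).image fk).card : ℝ) ≤ (((PP K X).image fk).card : ℝ) := by
    have : (PP K X0) ⊆ (PP K X) := by
      intro p hp
      obtain ⟨h1, h2, h3⟩ := (mem_PP K X0 p).mp hp
      exact (mem_PP K X p).mpr ⟨h1.trans (min_le_left _ _), h2, h3⟩
    exact_mod_cast card_le_card (image_subset_image this)
  have b7 : ((PP K X0).card : ℝ) = 2 * ((Ppos K X0).card : ℝ) + ((Pzero K X0).card : ℝ) := by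
    exact_mod_cast card_PP K X0
  have b8 : C1 * (K ^ (7 / 9 + eps) + K ^ ((1 : ℝ) / 6) * X0 ^ (1 / 4 + eps) + K / √X0)
      ≤ C1 * (2 * E) := by
    apply mul_le_mul_of_nonneg_left _ hC1.le
    rw [hE]; linarith
  have b9 : C2 * X0 ^ (2 + eps) ≤ C2 * E := by
    apply mul_le_mul_of_nonneg_left _ hC2.le
    rw [hE]; linarith
  have low : c / 2 * K ^ ((5 : ℝ) / 6) - (C1 * E + C2 * E + 3 / 2 * E)
      ≤ (((PP K X).image fk).card : ℝ) := by linarith [b1'.1]
  have hE0 : 0 < E := by rw [hE]; positivity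
  have hCE1 : 0 < C1 * E := by positivity
  have hCE2 : 0 < C2 * E := by positivity
  have hm : ((many K X).ncard : ℝ) + 2 * (((PP K X).image fk).card : ℝ)
      ≤ ((PP K X).card : ℝ) + ((Pzero K X).card : ℝ) := by exact_mod_cast many_le K X
  rw [curves_ncard]
  constructor
  · rw [abs_le]
    constructor
    · linarith
    · linarith [a1'.2]
  · linarith [a1'.2]

end Pool.Agent.H460.MP
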