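import Pool.Agent.H460.MP.Fun

/-! The direct count of the integral points with `|x| ≤ X` in residue classes. -/

set_option autoImplicit false

open Finset MeasureTheory

namespace Pool.Agent.H460.MP

theorem cardIcc (u v : ℝ) (h : u ≤ v) : |((Icc ⌈u⌉ ⌊v⌋).card : ℝ) - (v - u)| ≤ 1 := by
  have h1 := Int.floor_le v
  have h2 := Int.lt_floor_add_one v
  have h3 := Int.le_ceil u
  have h4 := Int.ceil_lt_add_one u
  have h5 : 0 ≤ ⌊v⌋ + 1 - ⌈u⌉ := by
    have : (-1 : ℝ) < ((⌊v⌋ + 1 - ⌈u⌉ : ℤ) : ℝ) := by push_cast; linarith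
    have : -1 < ⌊v⌋ + 1 - ⌈u⌉ := by exact_mod_cast this
    omega
  rw [Int.card_Icc]
  have h6 : ((⌊v⌋ + 1 - ⌈u⌉).toNat : ℝ) = ((⌊v⌋ + 1 - ⌈u⌉ : ℤ) : ℝ) := by
    exact_mod_cast Int.toNat_of_nonneg h5
  rw [h6, abs_le]
  push_cast
  constructor <;> linarith

theorem cardIoo (u v : ℝ) (h : u ≤ v) :
    |((Icc (⌊u⌋ + 1) (⌈v⌉ - 1)).card : ℝ) - (v - u)| ≤ 1 := by
  have h1 := Int.floor_le u
  have h2 := Int.lt_floor_add_one u
  have h3 := Int.le_ceil v
  have h4 := Int.ceil_lt_add_one v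
  rw [Int.card_Icc]
  rcases le_or_gt 0 (⌈v⌉ - 1 + 1 - (⌊u⌋ + 1)) with h5 | h5
  · have h6 : ((⌈v⌉ - 1 + 1 - (⌊u⌋ + 1)).toNat : ℝ) = ((⌈v⌉ - 1 + 1 - (⌊u⌋ + 1) : ℤ) : ℝ) := by
      exact_mod_cast Int.toNat_of_nonneg h5
    rw [h6, abs_le]
    push_cast
    constructor <;> linarith
  · rw [Int.toNat_of_nonpos h5.le]
    have h7 : ⌈v⌉ - 1 + 1 - (⌊u⌋ + 1) ≤ -1 := by omega
    have h8 : ((⌈v⌉ - 1 + 1 - (⌊u⌋ + 1) : ℤ) : ℝ) ≤ ((-1 : ℤ) : ℝ) := by exact_mod_cast h7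
    push_cast at h8
    rw [abs_le]
    push_cast
    constructor <;> linarith

/-- one value of `x` -/
theorem fiber (K : ℝ) (hK : 0 ≤ K) (x b n : ℤ) (hn : 0 < n) (S : Finset ℤ)
    (hS : ∀ s : ℤ, s ∈ S ↔ (b + n * s) ^ 2 ≠ x ^ 3 ∧ |((b + n * s : ℤ) : ℝ) ^ 2 - (x : ℝ) ^ 3| ≤ K) :
    |(S.card : ℝ) - 2 / n * (√((x : ℝ) ^ 3 + K) - √((x : ℝ) ^ 3 - K))| ≤ 4 := by
  classical
  have hn' : (0 : ℝ) < n := by exact_mod_cast hn
  rcases lt_or_ge ((x : ℝ) ^ 3 + K) 0 with h | h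
  · have e : S = ∅ := by
      rw [eq_empty_iff_forall_notMem]
      intro s hs
      have := ((hS s).mp hs).2
      have h2 := (abs_le.mp this).2
      have : 0 ≤ ((b + n * s : ℤ) : ℝ) ^ 2 := sq_nonneg _
      linarith
    rw [e, Real.sqrt_eq_zero_of_nonpos h.le, Real.sqrt_eq_zero_of_nonpos (by linarith)]
    simp
  set A := √((x : ℝ) ^ 3 + K) with hA
  set B := √((x : ℝ) ^ 3 - K) with hB
  have hA0 : 0 ≤ A := Real.sqrt_nonneg _
  have hB0 : 0 ≤ B := Real.sqrt_nonneg _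
  have hBA : B ≤ A := Real.sqrt_le_sqrt (by linarith)
  set I1 : Finset ℤ := Icc ⌈(-A - b) / n⌉ ⌊(A - b) / n⌋ with hI1
  set I2 : Finset ℤ := Icc (⌊(-B - b) / n⌋ + 1) (⌈(B - b) / n⌉ - 1) with hI2
  have m1 : ∀ s : ℤ, s ∈ I1 ↔ ((b + n * s : ℤ) : ℝ) ^ 2 ≤ (x : ℝ) ^ 3 + K := by
    intro s
    rw [hI1, mem_Icc, Int.ceil_le, Int.le_floor, div_le_iff₀ hn', le_div_iff₀ hn']
    have : ((b + n * s : ℤ) : ℝ) ^ 2 ≤ (x : ℝ) ^ 3 + K ↔ |((b + n * s : ℤ) : ℝ)| ≤ A := by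
      rw [hA]
      constructor
      · intro h1; exact Real.abs_le_sqrt h1
      · intro h1
        have := pow_le_pow_left₀ (abs_nonneg _) h1 2
        rwa [sq_abs, Real.sq_sqrt h] at this
    rw [this, abs_le]
    push_cast
    constructor
    · rintro ⟨h1, h2⟩; constructor <;> linarith
    · rintro ⟨h1, h2⟩; constructor <;> linarith
  have m2 : ∀ s : ℤ, s ∈ I2 ↔ ((b + n * s : ℤ) : ℝ) ^ 2 < (x : ℝ) ^ 3 - K := by
    intro s
    have r1 : (s ∈ I2) ↔ ((-B - b) / n < s ∧ (s : ℝ) < (B - b) / n) := by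
      rw [hI2, mem_Icc, Int.add_one_le_iff, Int.floor_lt, Int.le_sub_one_iff, Int.lt_ceil]
    rw [r1, div_lt_iff₀ hn', lt_div_iff₀ hn']
    have : ((b + n * s : ℤ) : ℝ) ^ 2 < (x : ℝ) ^ 3 - K ↔ |((b + n * s : ℤ) : ℝ)| < B := by
      rw [hB, Real.lt_sqrt (abs_nonneg _), sq_abs]
    rw [this, abs_lt]
    push_cast
    constructor
    · rintro ⟨h1, h2⟩; constructor <;> linarith
    · rintro ⟨h1, h2⟩; constructor <;> linarith
  have hsub : I2 ⊆ I1 := by
    intro s hs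
    rw [m2] at hs
    rw [m1]
    linarith
  set Z : Finset ℤ := I1.filter (fun s => (b + n * s) ^ 2 = x ^ 3) with hZ
  have hZ2 : Z.card ≤ 2 := by
    rcases Z.eq_empty_or_nonempty with h0 | ⟨s0, hs0⟩
    · rw [h0]; simp
    · have e0 : (b + n * s0) ^ 2 = x ^ 3 := (mem_filter.mp hs0).2
      have : Z ⊆ {s0, (-(b + n * s0) - b) / n} := by
        intro s hs
        have e1 : (b + n * s) ^ 2 = x ^ 3 := (mem_filter.mp hs).2
        have e2 : (b + n * s) ^ 2 = (b + n * s0) ^ 2 := e1.trans e0.symm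
        rcases sq_eq_sq_iff_eq_or_eq_neg.mp e2 with e3 | e3
        · have : n * s = n * s0 := by linarith
          rw [mem_insert]
          left
          exact mul_left_cancel₀ hn.ne' this
        · rw [mem_insert, mem_singleton]
          right
          rw [← e3]
          rw [show b + n * s - b = n * s by ring]
          exact (Int.mul_ediv_cancel_left s hn.ne').symm
      exact (card_le_card this).trans card_le_two
  have hSe : S = (I1 \ I2) \ Z := by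
    ext s
    rw [hS s, mem_sdiff, mem_sdiff, m2, hZ, mem_filter, m1, abs_le]
    constructor
    · rintro ⟨h1, h2, h3⟩
      refine ⟨⟨by linarith, by linarith⟩, fun h4 => h1 h4.2⟩
    · rintro ⟨⟨h1, h2⟩, h3⟩
      refine ⟨fun h4 => h3 ⟨h1, h4⟩, by linarith [not_lt.mp h2], by linarith⟩
  have c1 : (I1 \ I2).card = I1.card - I2.card := card_sdiff_of_subset hsub
  have c2 : I2.card ≤ I1.card := card_le_card hsub
  have c3 : ((I1 \ I2).card : ℝ) = (I1.card : ℝ) - I2.card := by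
    rw [c1]; push_cast [Nat.cast_sub c2]; ring
  have c4 : (S.card : ℝ) ≤ ((I1 \ I2).card : ℝ) := by
    rw [hSe]; exact_mod_cast card_le_card sdiff_subset
  have c5 : ((I1 \ I2).card : ℝ) ≤ S.card + 2 := by
    have : (I1 \ I2).card ≤ S.card + Z.card := by
      rw [hSe]
      have := card_le_card (subset_union_left (s₁ := (I1 \ I2)) (s₂ := Z))
      have h9 := card_union_of_disjoint (s := (I1 \ I2) \ Z) (t := Z) sdiff_disjoint
      rw [sdiff_union_self_eq_union] at h9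
      omega
    have h10 : (I1 \ I2).card ≤ S.card + 2 := by omega
    exact_mod_cast h10
  have d1 := cardIcc ((-A - b) / n) ((A - b) / n) (by gcongr; linarith)
  have d2 := cardIoo ((-B - b) / n) ((B - b) / n) (by gcongr; linarith)
  rw [← hI1, show (A - b) / n - (-A - b) / n = 2 / n * A by ring] at d1
  rw [← hI2, show (B - b) / n - (-B - b) / n = 2 / n * B by ring] at d2
  have t1 := abs_le.mp d1
  have t2 := abs_le.mp d2
  rw [abs_le, mul_sub]
  constructor <;> linarith [t1.1, t1.2, t2.1, t2.2]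

end Pool.Agent.H460.MP
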