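import Pool.Agent.H460.MP.Dir

/-! The direct count of the integral points with `|x| ≤ X` in residue classes. -/

set_option autoImplicit false

open Finset MeasureTheory

namespace Pool.Agent.H460.MP

/-- the points `(a + m t, b + n s)` near the cubic, `P` the set of the `(t, s)` -/
def IsPts (K X : ℝ) (a m b n : ℤ) (P : Finset (ℤ × ℤ)) : Prop :=
  ∀ e : ℤ × ℤ, e ∈ P ↔ |((a + m * e.1 : ℤ) : ℝ)| ≤ X ∧ (b + n * e.2) ^ 2 ≠ (a + m * e.1) ^ 3 ∧
    |((b + n * e.2 : ℤ) : ℝ) ^ 2 - ((a + m * e.1 : ℤ) : ℝ) ^ 3| ≤ K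

theorem scale (K : ℝ) (hK : 0 < K) (x : ℝ) :
    √(x ^ 3 + K) - √(x ^ 3 - K) = √K * g (x / K ^ ((1 : ℝ) / 3)) := by
  set κ := K ^ ((1 : ℝ) / 3) with hκ
  have hκ0 : 0 < κ := Real.rpow_pos_of_pos hK _
  have hκ3 : κ ^ 3 = K := by
    rw [hκ, ← Real.rpow_natCast, ← Real.rpow_mul hK.le]
    norm_num
  unfold g
  have e1 : x ^ 3 + K = K * ((x / κ) ^ 3 + 1) := by
    rw [div_pow, hκ3]; field_simp
  have e2 : x ^ 3 - K = K * ((x / κ) ^ 3 - 1) := by
    rw [div_pow, hκ3]; field_simp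
  rw [e1, e2, Real.sqrt_mul hK.le, Real.sqrt_mul hK.le]
  ring

theorem direct (K X : ℝ) (hK : 1 ≤ K) (hX : K ^ ((1 : ℝ) / 3) ≤ X) (a m b n : ℤ) (hm : 0 < m)
    (hn : 0 < n) (P : Finset (ℤ × ℤ)) (hP : IsPts K X a m b n P) :
    |(P.card : ℝ) - c * K ^ ((5 : ℝ) / 6) / (m * n)| ≤ 9 * √K + 8 * (K / √X) + 12 * X := by
  classical
  have hK0 : 0 < K := by linarith
  have hm' : (0 : ℝ) < m := by exact_mod_cast hm
  have hn' : (0 : ℝ) < n := by exact_mod_cast hn
  have hm1 : (1 : ℝ) ≤ m := by exact_mod_cast hm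
  have hn1 : (1 : ℝ) ≤ n := by exact_mod_cast hn
  set κ := K ^ ((1 : ℝ) / 3) with hκ
  have hκ1 : 1 ≤ κ := Real.one_le_rpow hK (by norm_num)
  have hκ0 : 0 < κ := by linarith
  have hκ3 : κ ^ 3 = K := by
    rw [hκ, ← Real.rpow_natCast, ← Real.rpow_mul hK0.le]
    norm_num
  have hX1 : 1 ≤ X := hκ1.trans hX
  have hX0 : 0 < X := by linarith
  set t0 : ℤ := ⌈(-X - a) / m⌉ with ht0
  set t1 : ℤ := ⌊(X - a) / m⌋ with ht1
  have hT : ∀ t : ℤ, t ∈ Icc t0 t1 ↔ |((a + m * t : ℤ) : ℝ)| ≤ X := by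
    intro t
    rw [ht0, ht1, mem_Icc, Int.ceil_le, Int.le_floor, div_le_iff₀ hm', le_div_iff₀ hm', abs_le]
    push_cast
    constructor
    · rintro ⟨h1, h2⟩; constructor <;> linarith
    · rintro ⟨h1, h2⟩; constructor <;> linarith
  set f : ℤ → ℝ := fun t => 2 / n * (√K * g (((a + m * t : ℤ) : ℝ) / κ)) with hf
  have e1 : P.card = ∑ t ∈ Icc t0 t1, (P.filter (fun e => e.1 = t)).card := by
    apply card_eq_sum_card_fiberwise
    intro e he
    have h1 : e ∈ P := he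
    rw [hP] at h1
    exact (hT e.1).mpr h1.1
  have e2 : ∀ t ∈ Icc t0 t1, |(((P.filter (fun e => e.1 = t)).card : ℕ) : ℝ) - f t| ≤ 4 := by
    intro t ht
    have hc : ((P.filter (fun e => e.1 = t)).image Prod.snd).card
        = (P.filter (fun e => e.1 = t)).card := by
      apply card_image_of_injOn
      intro u hu v hv huv
      have hu' := (mem_filter.mp hu).2
      have hv' := (mem_filter.mp hv).2
      exact Prod.ext (hu'.trans hv'.symm) huv
    have hfib := fiber K hK0.le (a + m * t) b n hn ((P.filter (fun e => e.1 = t)).image Prod.snd) (by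
      intro s
      rw [mem_image]
      constructor
      · rintro ⟨⟨u, v⟩, h1, h2⟩
        rw [mem_filter, hP] at h1
        obtain ⟨⟨_, h4, h5⟩, h3⟩ := h1
        simp only at h2 h3 h4 h5
        subst h2 h3
        exact ⟨h4, h5⟩
      · rintro ⟨h4, h5⟩
        exact ⟨(t, s), mem_filter.mpr ⟨(hP _).mpr ⟨(hT t).mp ht, h4, h5⟩, rfl⟩, rfl⟩)
    rw [hc, scale K hK0] at hfib
    exact hfib
  have e3 : |(P.card : ℝ) - ∑ t ∈ Icc t0 t1, f t| ≤ 4 * ((Icc t0 t1).card : ℝ) := by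
    rw [e1]
    push_cast
    rw [← sum_sub_distrib]
    refine (abs_sum_le_sum_abs _ _).trans ?_
    refine (sum_le_sum e2).trans (le_of_eq ?_)
    rw [sum_const, nsmul_eq_mul]
    ring
  have e4 : ((Icc t0 t1).card : ℝ) ≤ 3 * X := by
    have h1 := cardIcc ((-X - a) / m) ((X - a) / m) (by gcongr; linarith)
    rw [← ht0, ← ht1, show (X - a) / m - (-X - a) / m = 2 * X / m by ring] at h1
    have h2 : 2 * X / m ≤ 2 * X := div_le_self (by positivity) hm1
    linarith [(abs_le.mp h1).2]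
  set N := (t1 + 1 - t0).toNat with hN
  set q : ℝ := ((a + m * t0 : ℤ) : ℝ) / κ with hq
  set h : ℝ := (m : ℝ) / κ with hh
  have hh0 : 0 < h := by positivity
  have e5 : ∑ t ∈ Icc t0 t1, f t = 2 / n * √K * ∑ i ∈ range N, g (q + h * i) := by
    rw [Int.Icc_eq_finset_map, sum_map, mul_sum]
    refine sum_congr rfl ?_
    intro i _
    simp only [hf, hq, hh, Function.Embedding.trans_apply, Nat.castEmbedding_apply,
      addLeftEmbedding_apply]
    rw [mul_assoc]
    congr 3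
    push_cast
    ring
  have e6 := sum_g q h (X / κ) N hh0 (by rwa [le_div_iff₀ hκ0, one_mul]) (by
    have h1 := Int.ceil_lt_add_one ((-X - a) / (m : ℝ))
    rw [← ht0] at h1
    have h2 : (m : ℝ) * t0 ≤ m * ((-X - a) / m + 1) := by gcongr
    have h3 : (m : ℝ) * ((-X - a) / m + 1) = -X - a + m := by field_simp
    rw [hq, hh, ← neg_div, ← add_div]
    push_cast
    refine (div_le_div_iff_of_pos_right hκ0).mpr ?_
    linarith) (by
    have h1 := Int.lt_floor_add_one ((X - a) / (m : ℝ))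
    rw [← ht1] at h1
    have h2 : t1 + 1 - t0 ≤ N := Int.self_le_toNat _
    have h3 : (t1 : ℝ) + 1 - t0 ≤ N := by exact_mod_cast h2
    have h4 : (X - a) / m ≤ t0 + N := by linarith
    rw [div_le_iff₀ hm'] at h4
    rw [hq, hh, div_mul_eq_mul_div, ← add_div]
    push_cast
    refine (div_le_div_iff_of_pos_right hκ0).mpr ?_
    linarith)
  have e7 : 2 / n * √K * ((1 / h) * ∫ x, g x) = c * K ^ ((5 : ℝ) / 6) / (m * n) := by
    have : √K * κ = K ^ ((5 : ℝ) / 6) := by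
      rw [Real.sqrt_eq_rpow, hκ, ← Real.rpow_add hK0]
      norm_num
    rw [← this, hh, c]
    field_simp
  have e8 : 2 / n * √K * (9 / 2 + 4 / (h * √(X / κ))) ≤ 9 * √K + 8 * (K / √X) := by
    have hs : √(X / κ) = √X / √κ := Real.sqrt_div hX0.le _
    have hsX : 0 < √X := Real.sqrt_pos.mpr hX0
    have hsκ : 0 < √κ := Real.sqrt_pos.mpr hκ0
    have h1 : √K * (κ * √κ) = K := by
      have : κ * √κ = √K := by
        rw [← hκ3, show κ ^ 3 = κ ^ 2 * κ by ring, Real.sqrt_mul (by positivity),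
          Real.sqrt_sq hκ0.le]
      rw [this, Real.mul_self_sqrt hK0.le]
    have h2 : 4 / (h * √(X / κ)) = 4 * (κ * √κ) / (m * √X) := by
      rw [hs, hh]; field_simp
    have h3 : 4 * (κ * √κ) / (m * √X) ≤ 4 * (κ * √κ) / √X := by
      apply div_le_div_of_nonneg_left (by positivity) hsX
      nlinarith
    have h4 : 2 / (n : ℝ) * √K ≤ 2 * √K := by
      gcongr
      exact div_le_self (by norm_num) hn1
    calc 2 / n * √K * (9 / 2 + 4 / (h * √(X / κ)))
        ≤ 2 * √K * (9 / 2 + 4 * (κ * √κ) / √X) := by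
          rw [h2]
          gcongr
      _ = 9 * √K + 8 * ((√K * (κ * √κ)) / √X) := by ring
      _ = _ := by rw [h1]
  have e9 : |2 / n * √K * ∑ i ∈ range N, g (q + h * i) - c * K ^ ((5 : ℝ) / 6) / (m * n)|
      ≤ 9 * √K + 8 * (K / √X) := by
    rw [← e7, ← mul_sub, abs_mul, abs_of_nonneg (by positivity : 0 ≤ 2 / (n : ℝ) * √K)]
    refine le_trans ?_ e8
    gcongr
  rw [← e5] at e9
  have t1' := abs_le.mp e3
  have t2' := abs_le.mp e9
  rw [abs_le]
  constructor <;> linarith [t1'.1, t1'.2, t2'.1, t2'.2]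

end Pool.Agent.H460.MP
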