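import Mathlib

/-! The profile `√(x³ + 1) - √(x³ - 1)` and sums of it over arithmetic progressions. -/

set_option autoImplicit false

open Finset MeasureTheory

namespace Pool.Agent.H460.MP

/-- half of the length of the section at `x` of the region `|y² - x³| ≤ 1` -/
noncomputable def g (x : ℝ) : ℝ := √(x ^ 3 + 1) - √(x ^ 3 - 1)

theorem cube_mono {x y : ℝ} (h : x ≤ y) : x ^ 3 ≤ y ^ 3 :=
  (Odd.strictMono_pow (by decide : Odd 3)).monotone h

theorem g_zero (x : ℝ) (h : x ≤ -1) : g x = 0 := by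
  have h1 := cube_mono h
  unfold g
  rw [Real.sqrt_eq_zero_of_nonpos (by linarith), Real.sqrt_eq_zero_of_nonpos (by linarith)]
  ring

theorem g_nonneg (x : ℝ) : 0 ≤ g x :=
  sub_nonneg.mpr (Real.sqrt_le_sqrt (by linarith))

theorem g_low (x : ℝ) (h : x ≤ 1) : g x = √(x ^ 3 + 1) := by
  have h1 := cube_mono h
  unfold g
  rw [Real.sqrt_eq_zero_of_nonpos (x := x ^ 3 - 1) (by linarith)]
  ring

theorem g_high (x : ℝ) (h : 1 ≤ x) : g x = 2 / (√(x ^ 3 + 1) + √(x ^ 3 - 1)) := by
  have h1 := cube_mono h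
  have hp : 0 < √(x ^ 3 + 1) := Real.sqrt_pos.mpr (by linarith)
  have hq : 0 ≤ √(x ^ 3 - 1) := Real.sqrt_nonneg _
  unfold g
  rw [eq_div_iff (by positivity)]
  have h2 : √(x ^ 3 + 1) ^ 2 = x ^ 3 + 1 := Real.sq_sqrt (by linarith)
  have h3 : √(x ^ 3 - 1) ^ 2 = x ^ 3 - 1 := Real.sq_sqrt (by linarith)
  linear_combination h2 - h3

theorem g_mono (x y : ℝ) (hxy : x ≤ y) (hy : y ≤ 1) : g x ≤ g y := by
  rw [g_low x (hxy.trans hy), g_low y hy]
  exact Real.sqrt_le_sqrt (by linarith [cube_mono hxy])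

theorem g_anti (x y : ℝ) (hx : 1 ≤ x) (hxy : x ≤ y) : g y ≤ g x := by
  rw [g_high x hx, g_high y (hx.trans hxy)]
  have h1 := cube_mono hx
  have h2 := cube_mono hxy
  have hp : 0 < √(x ^ 3 + 1) := Real.sqrt_pos.mpr (by linarith)
  have hq : 0 ≤ √(x ^ 3 - 1) := Real.sqrt_nonneg _
  apply div_le_div_of_nonneg_left (by norm_num) (by positivity)
  exact add_le_add (Real.sqrt_le_sqrt (by linarith)) (Real.sqrt_le_sqrt (by linarith))

theorem g_le (x : ℝ) : g x ≤ 3 / 2 := by
  have h1 : g 1 ≤ 3 / 2 := by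
    rw [g_low 1 le_rfl, Real.sqrt_le_left (by norm_num)]
    norm_num
  rcases le_total x 1 with h | h
  · exact (g_mono x 1 h le_rfl).trans h1
  · exact (g_anti 1 x le_rfl h).trans h1

theorem g_tail (x : ℝ) (h : 1 ≤ x) : g x ≤ 2 * x ^ (-(3 / 2) : ℝ) := by
  have hx : 0 < x := by linarith
  have h1 : (1 : ℝ) ≤ x ^ 3 := one_le_pow₀ h
  rw [g_high x h, Real.rpow_neg hx.le, ← div_eq_mul_inv]
  apply div_le_div_of_nonneg_left (by norm_num) (by positivity)
  have h2 : x ^ ((3 : ℝ) / 2) = √(x ^ 3) := by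
    rw [Real.sqrt_eq_rpow, ← Real.rpow_natCast, ← Real.rpow_mul hx.le]
    norm_num
  rw [h2]
  have h3 : √(x ^ 3) ≤ √(x ^ 3 + 1) := Real.sqrt_le_sqrt (by linarith)
  have h4 : 0 ≤ √(x ^ 3 - 1) := Real.sqrt_nonneg _
  linarith

theorem g_cont : Continuous g := by
  unfold g
  fun_prop

theorem g_int_Ioi (r : ℝ) (hr : 1 ≤ r) : IntegrableOn g (Set.Ioi r) := by
  have h := (integrableOn_Ioi_rpow_of_lt (a := -(3 / 2)) (by norm_num)
    (show (0 : ℝ) < r by linarith)).const_mul 2
  refine Integrable.mono' h g_cont.aestronglyMeasurable ?_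
  refine (ae_restrict_iff' measurableSet_Ioi).mpr (Filter.Eventually.of_forall ?_)
  intro x hx
  have hx' : r < x := hx
  rw [Real.norm_eq_abs, abs_of_nonneg (g_nonneg x)]
  exact g_tail x (by linarith)

theorem g_int : Integrable g := by
  rw [← integrableOn_univ]
  have e : (Set.univ : Set ℝ) = (Set.Iic (-1) ∪ Set.Ioc (-1) 1) ∪ Set.Ioi 1 := by
    ext x
    simp only [Set.mem_univ, Set.mem_union, Set.mem_Iic, Set.mem_Ioc, Set.mem_Ioi, true_iff]
    rcases le_or_gt x (-1) with h | h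
    · left; left; exact h
    · rcases le_or_gt x 1 with h2 | h2
      · left; right; exact ⟨h, h2⟩
      · right; exact h2
  rw [e]
  refine ((IntegrableOn.union ?_ ?_).union (g_int_Ioi 1 le_rfl))
  · refine (integrableOn_zero (μ := volume) (s := Set.Iic (-1 : ℝ))).congr_fun ?_ measurableSet_Iic
    intro x hx
    exact (g_zero x hx).symm
  · exact (g_cont.integrableOn_Icc (a := -1) (b := 1)).mono_set Set.Ioc_subset_Icc_self

theorem g_tail_int (r : ℝ) (hr : 1 ≤ r) : ∫ x in Set.Ioi r, g x ≤ 4 / √r := by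
  have hr0 : 0 < r := by linarith
  have h := (integrableOn_Ioi_rpow_of_lt (a := -(3 / 2)) (by norm_num) hr0).const_mul 2
  have h1 : ∫ x in Set.Ioi r, g x ≤ ∫ x in Set.Ioi r, 2 * x ^ (-(3 / 2) : ℝ) := by
    refine setIntegral_mono_on (g_int_Ioi r hr) h measurableSet_Ioi ?_
    intro x hx
    have hx' : r < x := hx
    exact g_tail x (by linarith)
  refine h1.trans (le_of_eq ?_)
  rw [integral_const_mul, integral_Ioi_rpow_of_lt (by norm_num) hr0]
  have h2 : r ^ (-(3 / 2) + 1 : ℝ) = (√r)⁻¹ := by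
    rw [Real.sqrt_eq_rpow, ← Real.rpow_neg hr0.le]
    norm_num
  rw [h2]
  have : √r ≠ 0 := (Real.sqrt_pos.mpr hr0).ne'
  field_simp
  norm_num

/-- the area of `|y² - x³| ≤ 1` -/
noncomputable def c : ℝ := 2 * ∫ x, g x

theorem c_ge : 2 ≤ c := by
  have h1 : (1 : ℝ) ≤ ∫ x, g x := by
    have h2 : ∫ x in Set.Ioc (0 : ℝ) 1, g x ≤ ∫ x, g x :=
      setIntegral_le_integral g_int (Filter.Eventually.of_forall g_nonneg)
    have h3 : ∫ _x in Set.Ioc (0 : ℝ) 1, (1 : ℝ) ≤ ∫ x in Set.Ioc (0 : ℝ) 1, g x := by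
      refine setIntegral_mono_on (integrableOn_const (by simp)) g_int.integrableOn
        measurableSet_Ioc ?_
      intro x hx
      rw [g_low x hx.2, Real.one_le_sqrt]
      have : 0 ≤ x ^ 3 := pow_nonneg hx.1.le 3
      linarith
    have h4 : ∫ _x in Set.Ioc (0 : ℝ) 1, (1 : ℝ) = 1 := by simp
    linarith
  unfold c
  linarith

theorem mono_sum (F : ℝ → ℝ) (hF : Monotone F) (p : ℝ) (N : ℕ) :
    |∑ i ∈ range N, F (p + i) - ∫ x in p..(p + N), F x| ≤ F (p + N) - F p := by
  have h1 : ∑ i ∈ range N, F (p + i) ≤ ∫ x in p..(p + N), F x :=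
    (hF.monotoneOn _).sum_le_integral
  have h2 : ∫ x in p..(p + N), F x ≤ ∑ i ∈ range N, F (p + (i + 1 : ℕ)) :=
    (hF.monotoneOn _).integral_le_sum
  have h3 : ∑ i ∈ range N, F (p + (i + 1 : ℕ)) - ∑ i ∈ range N, F (p + i) = F (p + N) - F p := by
    rw [← sum_sub_distrib]
    have := Finset.sum_range_sub (fun i : ℕ => F (p + i)) N
    simpa using this
  rw [abs_le]
  constructor <;> linarith

/-- sums of `g` over an arithmetic progression covering the support -/
theorem sum_g (q h Z : ℝ) (N : ℕ) (hh : 0 < h) (hZ : 1 ≤ Z) (hq : q ≤ -Z + h)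
    (hr : Z ≤ q + h * N) :
    |∑ i ∈ range N, g (q + h * i) - (1 / h) * ∫ x, g x| ≤ 9 / 2 + 4 / (h * √Z) := by
  set F1 : ℝ → ℝ := fun y => g (min (q + h * y) 1) with hF1
  set F2 : ℝ → ℝ := fun y => -g (max (q + h * y) 1) with hF2
  have m1 : Monotone F1 := by
    intro u v huv
    have : h * u ≤ h * v := by gcongr
    exact g_mono _ _ (min_le_min_right _ (by linarith)) (min_le_right _ _)
  have m2 : Monotone F2 := by
    intro u v huv
    have : h * u ≤ h * v := by gcongr
    exact neg_le_neg (g_anti _ _ (le_max_right _ _) (max_le_max_right _ (by linarith)))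
  have hsplit : ∀ y, g (q + h * y) = F1 y - F2 y - g 1 := by
    intro y
    simp only [hF1, hF2]
    rcases le_total (q + h * y) 1 with h1 | h1
    · rw [min_eq_left h1, max_eq_right h1]; ring
    · rw [min_eq_right h1, max_eq_left h1]; ring
  have s1 := mono_sum F1 m1 0 N
  have s2 := mono_sum F2 m2 0 N
  simp only [zero_add] at s1 s2
  have b1 : F1 N - F1 0 ≤ 3 / 2 := by
    have := g_le (min (q + h * N) 1)
    have := g_nonneg (min (q + h * 0) 1)
    simp only [hF1]
    linarith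
  have b2 : F2 N - F2 0 ≤ 3 / 2 := by
    have := g_nonneg (max (q + h * N) 1)
    have := g_le (max (q + h * 0) 1)
    simp only [hF2]
    linarith
  have i1 : IntervalIntegrable F1 volume 0 N := m1.intervalIntegrable
  have i2 : IntervalIntegrable F2 volume 0 N := m2.intervalIntegrable
  have e1 : ∫ y in (0 : ℝ)..N, g (q + h * y)
      = (∫ y in (0 : ℝ)..N, F1 y) - (∫ y in (0 : ℝ)..N, F2 y) - N * g 1 := by
    rw [intervalIntegral.integral_congr (g := fun y => F1 y - F2 y - g 1)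
      (fun y _ => hsplit y), intervalIntegral.integral_sub (i1.sub i2)
      (intervalIntegrable_const), intervalIntegral.integral_sub i1 i2]
    simp
  have e2 : ∑ i ∈ range N, g (q + h * i)
      = ∑ i ∈ range N, F1 i - ∑ i ∈ range N, F2 i - N * g 1 := by
    have : ∑ i ∈ range N, g (q + h * i) = ∑ i ∈ range N, (F1 i - F2 i - g 1) :=
      sum_congr rfl (fun i _ => hsplit (i : ℝ))
    rw [this, sum_sub_distrib, sum_sub_distrib]
    simp
  have e3 : ∫ y in (0 : ℝ)..N, g (q + h * y) = (1 / h) * ∫ x in q..(q + h * N), g x := by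
    have := intervalIntegral.integral_comp_add_mul (a := 0) (b := (N : ℝ)) g hh.ne' q
    rw [this]
    simp [smul_eq_mul]
  have e4 : ∫ x, g x = (∫ x in (q - h)..q, g x) + (∫ x in q..(q + h * N), g x)
      + ∫ x in Set.Ioi (q + h * N), g x := by
    have a1 := intervalIntegral.integral_Iic_add_Ioi (f := g) (μ := volume) (b := q + h * N)
      g_int.integrableOn g_int.integrableOn
    have a2 := intervalIntegral.integral_Iic_sub_Iic (f := g) (μ := volume) (a := q - h)
      (b := q + h * N) g_int.integrableOn g_int.integrableOn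
    have a3 := intervalIntegral.integral_add_adjacent_intervals (f := g) (μ := volume)
      (a := q - h) (b := q) (c := q + h * N) (g_cont.intervalIntegrable _ _)
      (g_cont.intervalIntegrable _ _)
    have a4 : ∫ x in Set.Iic (q - h), g x = 0 := by
      refine setIntegral_eq_zero_of_forall_eq_zero ?_
      intro x hx
      have hx' : x ≤ q - h := hx
      exact g_zero x (by linarith)
    linarith
  have e5 : |∫ x in (q - h)..q, g x| ≤ 3 / 2 * h := by
    have := intervalIntegral.norm_integral_le_of_norm_le_const (f := g) (a := q - h) (b := q)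
      (C := 3 / 2) (by
        intro x _
        rw [Real.norm_eq_abs, abs_of_nonneg (g_nonneg x)]
        exact g_le x)
    rw [Real.norm_eq_abs] at this
    rwa [show q - (q - h) = h by ring, abs_of_pos hh] at this
  have hr1 : 1 ≤ q + h * N := hZ.trans hr
  have e6 : ∫ x in Set.Ioi (q + h * N), g x ≤ 4 / √Z := by
    refine (g_tail_int _ hr1).trans ?_
    apply div_le_div_of_nonneg_left (by norm_num) (Real.sqrt_pos.mpr (by linarith))
    exact Real.sqrt_le_sqrt hr
  have e7 : 0 ≤ ∫ x in Set.Ioi (q + h * N), g x :=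
    setIntegral_nonneg measurableSet_Ioi (fun x _ => g_nonneg x)
  have e8 : ∑ i ∈ range N, g (q + h * i) - (1 / h) * ∫ x, g x
      = ((∑ i ∈ range N, F1 i - ∫ y in (0 : ℝ)..N, F1 y)
        - (∑ i ∈ range N, F2 i - ∫ y in (0 : ℝ)..N, F2 y))
        - (1 / h) * (∫ x in (q - h)..q, g x) - (1 / h) * ∫ x in Set.Ioi (q + h * N), g x := by
    rw [e4]
    have : (∫ y in (0 : ℝ)..N, F1 y) - (∫ y in (0 : ℝ)..N, F2 y) - N * g 1
        = (1 / h) * ∫ x in q..(q + h * N), g x := by rw [← e1, e3]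
    rw [e2]
    linear_combination this
  rw [e8]
  have f1 : |(1 / h) * (∫ x in (q - h)..q, g x)| ≤ 3 / 2 := by
    rw [abs_mul, abs_of_pos (by positivity : 0 < 1 / h)]
    calc 1 / h * |∫ x in (q - h)..q, g x| ≤ 1 / h * (3 / 2 * h) := by gcongr
      _ = 3 / 2 := by field_simp
  have f2 : |(1 / h) * ∫ x in Set.Ioi (q + h * N), g x| ≤ 4 / (h * √Z) := by
    rw [abs_mul, abs_of_pos (by positivity : 0 < 1 / h), abs_of_nonneg e7]
    calc 1 / h * _ ≤ 1 / h * (4 / √Z) := by gcongr
      _ = 4 / (h * √Z) := by rw [div_mul_div_comm]; ring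
  have t1 := abs_le.mp s1
  have t2 := abs_le.mp s2
  have t3 := abs_le.mp f1
  have t4 := abs_le.mp f2
  rw [abs_le]
  constructor <;> linarith [t1.1, t1.2, t2.1, t2.2, t3.1, t3.2, t4.1, t4.2]

end Pool.Agent.H460.MP
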