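import Pool.Agent.H460.MP.Area

/-! The integral points that satisfy Hall's inequality. -/

set_option autoImplicit false

open Finset MeasureTheory Filter Topology

namespace Pool.Agent.H460.MP

theorem lim_pts (θ : ℝ) (h1 : 1 / 3 < θ) (h2 : θ < 8 / 3) :
    Tendsto (fun K : ℝ => ((pts K (K ^ θ) 0 1 0 1).ncard : ℝ) / K ^ ((5 : ℝ) / 6)) atTop (𝓝 c) := by
  refine lim_aux θ h1 h2 _ c (7 / 9) (by norm_num) ?_
  intro eps he
  obtain ⟨C, hC, h⟩ := asymp eps he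
  refine ⟨C, hC, ?_⟩
  intro K X hK hX hXe
  have := h K X hK hX 0 1 0 1 one_pos one_pos
  rw [Int.cast_one, one_mul, div_one] at this
  rwa [hXe] at this ⊢

theorem lim_curves (θ : ℝ) (h1 : 1 / 3 < θ) (h2 : θ < 8 / 3) :
    Tendsto (fun K : ℝ => ((curves K (K ^ θ)).ncard : ℝ) / K ^ ((5 : ℝ) / 6)) atTop (𝓝 (c / 2)) := by
  refine lim_aux θ h1 h2 _ (c / 2) (4 / 5) le_rfl ?_
  intro eps he
  obtain ⟨C, hC, h⟩ := count_curves eps he
  refine ⟨C, hC, ?_⟩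
  intro K X hK hX hXe
  have := (h K X hK hX).1
  rwa [hXe] at this ⊢

theorem lim_many (θ : ℝ) (h1 : 1 / 3 < θ) (h2 : θ < 8 / 3) :
    Tendsto (fun K : ℝ => ((many K (K ^ θ)).ncard : ℝ) / K ^ ((5 : ℝ) / 6)) atTop (𝓝 0) := by
  refine lim_aux θ h1 h2 _ 0 (4 / 5) le_rfl ?_
  intro eps he
  obtain ⟨C, hC, h⟩ := count_curves eps he
  refine ⟨C, hC, ?_⟩
  intro K X hK hX hXe
  have := (h K X hK hX).2
  rw [hXe] at this ⊢
  rw [zero_mul, sub_zero, abs_of_nonneg (by positivity)]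
  exact this

/-- the integral points with `0 < |k| ≤ K` and `|x| ≤ A |k| ^ θ` -/
def hall (A θ K : ℝ) : Set (ℤ × ℤ) :=
  {p | p.2 ^ 2 ≠ p.1 ^ 3 ∧ |(p.2 : ℝ) ^ 2 - (p.1 : ℝ) ^ 3| ≤ K ∧
    |(p.1 : ℝ)| ≤ A * |(p.2 : ℝ) ^ 2 - (p.1 : ℝ) ^ 3| ^ θ}

theorem lim_hall (A θ : ℝ) (hA : 0 < A) (h1 : 1 / 3 < θ) (h2 : θ < 8 / 3) :
    Tendsto (fun K : ℝ => ((hall A θ K).ncard : ℝ) / K ^ ((5 : ℝ) / 6)) atTop (𝓝 c) := by
  set θ' := (θ + 8 / 3) / 2 with hθ'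
  set θ0 := (1 / 3 + θ) / 2 with hθ0
  have hθ0p : 0 < θ0 := by rw [hθ0]; linarith
  have hθp : 0 < θ := by linarith
  set σ := (1 + θ0 / θ) / 2 with hσ
  have hq1 : θ0 / θ < 1 := by rw [div_lt_one hθp]; rw [hθ0]; linarith
  have hq0 : 0 < θ0 / θ := by positivity
  have hσ1 : σ < 1 := by rw [hσ]; linarith
  have hσ0 : θ0 / θ < σ := by rw [hσ]; linarith
  have hσp : 0 < σ := by linarith
  have hσθ : θ0 < σ * θ := by rwa [div_lt_iff₀ hθp] at hσ0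
  have hρ1 : 1 / 3 < θ0 / σ := by
    rw [lt_div_iff₀ hσp]
    have : 1 / 3 < θ0 := by rw [hθ0]; linarith
    nlinarith
  have hρ2 : θ0 / σ < 8 / 3 := by
    rw [div_lt_iff₀ hσp]
    nlinarith
  -- limits
  have L1 := lim_pts θ' (by rw [hθ']; linarith) (by rw [hθ']; linarith)
  have L2 := lim_pts θ0 (by rw [hθ0]; linarith) (by rw [hθ0]; linarith)
  have L3 := lim_pts (θ0 / σ) hρ1 hρ2
  have L4 : Tendsto (fun K : ℝ => ((pts (K ^ σ) ((K ^ σ) ^ (θ0 / σ)) 0 1 0 1).ncard : ℝ)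
      / (K ^ σ) ^ ((5 : ℝ) / 6)) atTop (𝓝 c) := L3.comp (tendsto_rpow_atTop hσp)
  have L5 : Tendsto (fun K : ℝ => K ^ (-((1 - σ) * (5 / 6)) : ℝ)) atTop (𝓝 0) :=
    tendsto_rpow_neg_atTop (by nlinarith)
  have L6 := L2.sub (L4.mul L5)
  rw [mul_zero, sub_zero] at L6
  refine tendsto_of_tendsto_of_tendsto_of_le_of_le' L6 L1 ?_ ?_
  · -- lower bound
    have ev : ∀ᶠ K : ℝ in atTop, A⁻¹ ≤ K ^ (σ * θ - θ0) :=
      (tendsto_rpow_atTop (by linarith : 0 < σ * θ - θ0)).eventually_ge_atTop _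
    have ev2 : ∀ᶠ K : ℝ in atTop, A ≤ K ^ (θ' - θ) :=
      (tendsto_rpow_atTop (by rw [hθ']; linarith : 0 < θ' - θ)).eventually_ge_atTop _
    filter_upwards [ev, ev2, eventually_ge_atTop 1] with K hK1 hK3 hK
    have hK0 : 0 < K := by linarith
    have hp : 0 < K ^ ((5 : ℝ) / 6) := Real.rpow_pos_of_pos hK0 _
    have e1 : (K ^ σ) ^ (θ0 / σ) = K ^ θ0 := by
      rw [← Real.rpow_mul hK0.le]
      congr 1
      field_simp
    have e2 : ((pts (K ^ σ) ((K ^ σ) ^ (θ0 / σ)) 0 1 0 1).ncard : ℝ) / (K ^ σ) ^ ((5 : ℝ) / 6)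
        * K ^ (-((1 - σ) * (5 / 6)) : ℝ)
        = ((pts (K ^ σ) (K ^ θ0) 0 1 0 1).ncard : ℝ) / K ^ ((5 : ℝ) / 6) := by
      rw [e1, ← Real.rpow_mul hK0.le, div_mul_eq_mul_div,
        div_eq_div_iff (Real.rpow_pos_of_pos hK0 _).ne' hp.ne', mul_assoc, ← Real.rpow_add hK0]
      congr 2
      ring
    rw [e2, ← sub_div]
    refine (div_le_div_iff_of_pos_right hp).mpr ?_
    have hfinH : (hall A θ K).Finite := by
      refine (pts_finite K (K ^ θ') 0 1 0 1).subset ?_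
      rintro p ⟨b1, b2, b3⟩
      refine ⟨by simpa using Int.modEq_one, by simpa using Int.modEq_one, b3.trans ?_, b1, b2⟩
      calc A * |(p.2 : ℝ) ^ 2 - (p.1 : ℝ) ^ 3| ^ θ ≤ K ^ (θ' - θ) * K ^ θ := by gcongr
        _ = K ^ θ' := by rw [← Real.rpow_add hK0]; congr 1; ring
    have hsub : pts K (K ^ θ0) 0 1 0 1 \ pts (K ^ σ) (K ^ θ0) 0 1 0 1 ⊆ hall A θ K := by
      rintro p ⟨⟨b1, b2, b3, b4, b5⟩, b6⟩
      refine ⟨b4, b5, ?_⟩
      have b7 : K ^ σ < |(p.2 : ℝ) ^ 2 - (p.1 : ℝ) ^ 3| := by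
        by_contra hc
        push Not at hc
        exact b6 ⟨b1, b2, b3, b4, hc⟩
      have b8 : K ^ (σ * θ) ≤ |(p.2 : ℝ) ^ 2 - (p.1 : ℝ) ^ 3| ^ θ := by
        rw [Real.rpow_mul hK0.le]
        exact Real.rpow_le_rpow (Real.rpow_nonneg hK0.le _) b7.le hθp.le
      have b9 : K ^ θ0 ≤ A * K ^ (σ * θ) := by
        have : K ^ (σ * θ) = K ^ (σ * θ - θ0) * K ^ θ0 := by
          rw [← Real.rpow_add hK0]; congr 1; ring
        rw [this, ← mul_assoc]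
        have h3 : 1 ≤ A * K ^ (σ * θ - θ0) := by
          rw [inv_le_iff_one_le_mul₀ hA] at hK1
          linarith
        have h4 : 0 ≤ K ^ θ0 := Real.rpow_nonneg hK0.le _
        nlinarith
      exact b3.trans (b9.trans (by gcongr))
    have h5 := Set.ncard_le_ncard hsub hfinH
    have h6 := Set.le_ncard_sdiff (pts (K ^ σ) (K ^ θ0) 0 1 0 1) (pts K (K ^ θ0) 0 1 0 1)
      (pts_finite _ _ _ _ _ _)
    have h7 : ((pts K (K ^ θ0) 0 1 0 1).ncard : ℝ) - ((pts (K ^ σ) (K ^ θ0) 0 1 0 1).ncard : ℝ)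
        ≤ ((hall A θ K).ncard : ℝ) := by
      have : (pts K (K ^ θ0) 0 1 0 1).ncard
          ≤ (hall A θ K).ncard + (pts (K ^ σ) (K ^ θ0) 0 1 0 1).ncard := by omega
      have h8 : ((pts K (K ^ θ0) 0 1 0 1).ncard : ℝ)
          ≤ ((hall A θ K).ncard : ℝ) + ((pts (K ^ σ) (K ^ θ0) 0 1 0 1).ncard : ℝ) := by
        exact_mod_cast this
      linarith
    exact h7
  · -- upper bound
    have ev : ∀ᶠ K : ℝ in atTop, A ≤ K ^ (θ' - θ) :=
      (tendsto_rpow_atTop (by rw [hθ']; linarith : 0 < θ' - θ)).eventually_ge_atTop _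
    filter_upwards [ev, eventually_ge_atTop 1] with K hK1 hK
    have hK0 : 0 < K := by linarith
    have hp : 0 < K ^ ((5 : ℝ) / 6) := Real.rpow_pos_of_pos hK0 _
    refine (div_le_div_iff_of_pos_right hp).mpr ?_
    have hsub : hall A θ K ⊆ pts K (K ^ θ') 0 1 0 1 := by
      rintro p ⟨b1, b2, b3⟩
      refine ⟨by simpa using Int.modEq_one, by simpa using Int.modEq_one, b3.trans ?_, b1, b2⟩
      calc A * |(p.2 : ℝ) ^ 2 - (p.1 : ℝ) ^ 3| ^ θ ≤ K ^ (θ' - θ) * K ^ θ := by gcongr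
        _ = K ^ θ' := by rw [← Real.rpow_add hK0]; congr 1; ring
    exact_mod_cast Set.ncard_le_ncard hsub (pts_finite _ _ _ _ _ _)

end Pool.Agent.H460.MP
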