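import Pool.Agent.H460.MP.Dir2
import Pool.Agent.H460.MP.Big

/-! The number of integral points on all Mordell curves. -/

set_option autoImplicit false

open Finset

namespace Pool.Agent.H460.MP

/-- the integral points `(x, y)` with `x ≡ a (mod m)`, `y ≡ b (mod n)`, `|x| ≤ X` on the curves
`y² = x³ + k`, `0 < |k| ≤ K` -/
def pts (K X : ℝ) (a m b n : ℤ) : Set (ℤ × ℤ) :=
  {p | p.1 ≡ a [ZMOD m] ∧ p.2 ≡ b [ZMOD n] ∧ |(p.1 : ℝ)| ≤ X ∧ p.2 ^ 2 ≠ p.1 ^ 3 ∧
    |(p.2 : ℝ) ^ 2 - (p.1 : ℝ) ^ 3| ≤ K}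

theorem pts_finite (K X : ℝ) (a m b n : ℤ) : (pts K X a m b n).Finite := by
  have h : pts K X a m b n ⊆ ((Icc (-⌊X⌋) ⌊X⌋ ×ˢ Icc (-⌊K + |X| ^ 3⌋) ⌊K + |X| ^ 3⌋ :
      Finset (ℤ × ℤ)) : Set (ℤ × ℤ)) := by
    rintro ⟨x, y⟩ ⟨_, _, h1, _, h2⟩
    simp only at h1 h2
    rw [mem_coe, mem_product, mem_Icc, mem_Icc]
    have hx := abs_le.mp h1
    have hxX : |(x : ℝ)| ≤ |X| := h1.trans (le_abs_self X)
    have hy2 : (y : ℝ) ^ 2 ≤ K + |X| ^ 3 := by
      have h3 := (abs_le.mp h2).2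
      have h4 : (x : ℝ) ^ 3 ≤ |X| ^ 3 := by
        calc (x : ℝ) ^ 3 ≤ |(x : ℝ) ^ 3| := le_abs_self _
          _ = |(x : ℝ)| ^ 3 := abs_pow _ _
          _ ≤ |X| ^ 3 := by gcongr
      linarith
    have hyy : |y| ≤ y ^ 2 := by
      rw [← sq_abs y]
      rcases eq_or_ne y 0 with h0 | h0
      · subst h0; simp
      · have : 1 ≤ |y| := Int.one_le_abs h0
        nlinarith
    have hyr : |(y : ℝ)| ≤ (y : ℝ) ^ 2 := by exact_mod_cast hyy
    have hy3 : |(y : ℝ)| ≤ K + |X| ^ 3 := hyr.trans hy2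
    have hy4 := abs_le.mp hy3
    refine ⟨⟨?_, Int.le_floor.mpr hx.2⟩, ⟨?_, Int.le_floor.mpr hy4.2⟩⟩
    · have : -x ≤ ⌊X⌋ := Int.le_floor.mpr (by push_cast; linarith)
      omega
    · have : -y ≤ ⌊K + |X| ^ 3⌋ := Int.le_floor.mpr (by push_cast; linarith [hy4.1])
      omega
  exact (Finset.finite_toSet _).subset h

theorem small_part (K X : ℝ) (hK : 1 ≤ K) (hX : K ^ ((1 : ℝ) / 3) ≤ X) (a m b n : ℤ) (hm : 0 < m)
    (hn : 0 < n) : |((pts K X a m b n).ncard : ℝ) - c * K ^ ((5 : ℝ) / 6) / (m * n)|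
      ≤ 9 * √K + 8 * (K / √X) + 12 * X := by
  classical
  set φ : ℤ × ℤ → ℤ × ℤ := fun e => (a + m * e.1, b + n * e.2) with hφ
  have hinj : Function.Injective φ := by
    rintro ⟨t, s⟩ ⟨t', s'⟩ h
    simp only [hφ, Prod.mk.injEq] at h
    have h1 : m * t = m * t' := by linarith [h.1]
    have h2 : n * s = n * s' := by linarith [h.2]
    exact Prod.ext (mul_left_cancel₀ hm.ne' h1) (mul_left_cancel₀ hn.ne' h2)
  have hfin : (φ ⁻¹' (pts K X a m b n)).Finite := (pts_finite K X a m b n).preimage hinj.injOn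
  have himg : φ '' (φ ⁻¹' (pts K X a m b n)) = pts K X a m b n := by
    apply Set.image_preimage_eq_of_subset
    rintro ⟨x, y⟩ ⟨h1, h2, _⟩
    simp only at h1 h2
    obtain ⟨t, ht⟩ := h1.symm.dvd
    obtain ⟨s, hs⟩ := h2.symm.dvd
    exact ⟨(t, s), Prod.ext (by simp only [hφ]; linarith) (by simp only [hφ]; linarith)⟩
  have hcard : (pts K X a m b n).ncard = hfin.toFinset.card := by
    calc (pts K X a m b n).ncard = (φ '' (φ ⁻¹' (pts K X a m b n))).ncard := by rw [himg]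
      _ = (φ ⁻¹' (pts K X a m b n)).ncard := Set.ncard_image_of_injective _ hinj
      _ = _ := Set.ncard_eq_toFinset_card _ hfin
  rw [hcard]
  refine direct K X hK hX a m b n hm hn _ ?_
  intro e
  rw [Set.Finite.mem_toFinset]
  constructor
  · rintro ⟨_, _, h3, h4, h5⟩
    exact ⟨h3, h4, h5⟩
  · rintro ⟨h3, h4, h5⟩
    refine ⟨?_, ?_, h3, h4, h5⟩
    · exact (Int.modEq_iff_dvd.mpr ⟨-e.1, by simp only [hφ]; ring⟩)
    · exact (Int.modEq_iff_dvd.mpr ⟨-e.2, by simp only [hφ]; ring⟩)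

theorem large_part (eps : ℝ) (he : 0 < eps) : ∃ C : ℝ, 0 < C ∧ ∀ K X : ℝ, 1 ≤ K → 1 ≤ X →
    ∀ a m b n : ℤ, ((pts K X a m b n \ pts K (4 * √K) a m b n).ncard : ℝ)
      ≤ C * (K ^ (7 / 9 + eps) + K ^ ((1 : ℝ) / 6) * X ^ (1 / 4 + eps)) := by
  classical
  obtain ⟨C, hC, h⟩ := big eps he
  refine ⟨2 * C, by positivity, ?_⟩
  intro K X hK hX a m b n
  have hK0 : 0 < K := by linarith
  have hsK : 1 ≤ √K := Real.one_le_sqrt.mpr hK
  have hsK2 : √K ^ 2 = K := Real.sq_sqrt hK0.le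
  have hfin := pts_finite K X a m b n
  have hfin2 := hfin.subset (Set.sdiff_subset (s := pts K X a m b n) (t := pts K (4 * √K) a m b n))
  set D := hfin2.toFinset with hD
  have hprop : ∀ e ∈ D, 4 * √K < (e.1 : ℝ) ∧ (e.1 : ℝ) ≤ X ∧ e.2 ≠ 0 ∧ e.2 ^ 2 ≠ e.1 ^ 3 ∧
      |(e.2 : ℝ) ^ 2 - (e.1 : ℝ) ^ 3| ≤ K := by
    intro e he
    rw [hD, Set.Finite.mem_toFinset] at he
    obtain ⟨⟨h1, h2, h3, h4, h5⟩, h6⟩ := he
    have h7 : 4 * √K < |(e.1 : ℝ)| := by
      by_contra hc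
      push Not at hc
      exact h6 ⟨h1, h2, hc, h4, h5⟩
    have hbig : K < (4 * √K) ^ 3 := by
      have : (4 * √K) ^ 3 = 64 * K * √K := by rw [mul_pow]; rw [show √K ^ 3 = √K ^ 2 * √K by ring, hsK2]; ring
      rw [this]
      nlinarith
    have h8 : 4 * √K < (e.1 : ℝ) := by
      rcases le_or_gt 0 (e.1 : ℝ) with hc | hc
      · rwa [abs_of_nonneg hc] at h7
      · exfalso
        rw [abs_of_neg hc] at h7
        have h9 : (4 * √K) ^ 3 < (-(e.1 : ℝ)) ^ 3 := by gcongr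
        have h10 := (abs_le.mp h5).2
        have h11 : 0 ≤ (e.2 : ℝ) ^ 2 := sq_nonneg _
        have h12 : (-(e.1 : ℝ)) ^ 3 = -(e.1 : ℝ) ^ 3 := by ring
        linarith
    refine ⟨h8, (le_abs_self _).trans h3, ?_, h4, h5⟩
    intro h0
    rw [h0] at h5
    have h9 : (4 * √K) ^ 3 < (e.1 : ℝ) ^ 3 := by gcongr
    have h10 := (abs_le.mp h5).1
    push_cast at h10
    linarith
  set Dp := D.filter (fun e => 0 < e.2) with hDp
  set Dm := (D.filter (fun e => ¬ 0 < e.2)).image (fun e => (e.1, -e.2)) with hDm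
  have hc1 : D.card = Dp.card + Dm.card := by
    rw [hDm, card_image_of_injective]
    · exact (card_filter_add_card_filter_not (s := D) (fun e : ℤ × ℤ => 0 < e.2)).symm
    · rintro ⟨x, y⟩ ⟨x', y'⟩ hh
      simp only [Prod.mk.injEq, neg_inj] at hh
      exact Prod.ext hh.1 hh.2
  have hp := h K X hK hX Dp (by
    intro e he
    have he' := mem_filter.mp he
    obtain ⟨h1, h2, _, h4, h5⟩ := hprop e he'.1
    refine ⟨h1.le, h2, he'.2, fun h6 => h4 h6.symm, ?_⟩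
    rwa [abs_sub_comm])
  have hmm := h K X hK hX Dm (by
    intro e he
    obtain ⟨u, hu, hue⟩ := mem_image.mp he
    have hu' := mem_filter.mp hu
    obtain ⟨h1, h2, h3, h4, h5⟩ := hprop u hu'.1
    rw [← hue]
    simp only
    refine ⟨h1.le, h2, ?_, ?_, ?_⟩
    · have := hu'.2
      omega
    · intro h6
      apply h4
      rw [h6]; ring
    · rw [abs_sub_comm]
      push_cast
      rwa [neg_sq])
  have hcard : ((pts K X a m b n \ pts K (4 * √K) a m b n).ncard : ℝ) = Dp.card + Dm.card := by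
    rw [Set.ncard_eq_toFinset_card _ hfin2, ← hD, hc1]
    push_cast
    ring
  rw [hcard]
  linarith

/-- the asymptotic formula -/
theorem asymp (eps : ℝ) (he : 0 < eps) : ∃ C : ℝ, 0 < C ∧ ∀ K X : ℝ, 1 ≤ K →
    K ^ ((1 : ℝ) / 3) ≤ X → ∀ a m b n : ℤ, 0 < m → 0 < n →
    |((pts K X a m b n).ncard : ℝ) - c * K ^ ((5 : ℝ) / 6) / (m * n)|
      ≤ C * (K ^ (7 / 9 + eps) + K ^ ((1 : ℝ) / 6) * X ^ (1 / 4 + eps) + K / √X) := by
  obtain ⟨C, hC, h⟩ := large_part eps he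
  refine ⟨C + 210, by positivity, ?_⟩
  intro K X hK hX a m b n hm hn
  have hK0 : 0 < K := by linarith
  have hsK : 1 ≤ √K := Real.one_le_sqrt.mpr hK
  have hsK2 : √K ^ 2 = K := Real.sq_sqrt hK0.le
  have hX1 : 1 ≤ X := (Real.one_le_rpow hK (by norm_num)).trans hX
  have hX0 : 0 < X := by linarith
  have hsX0 : 0 < √X := Real.sqrt_pos.mpr hX0
  have p1 : 0 < K ^ (7 / 9 + eps) := Real.rpow_pos_of_pos hK0 _
  have p2 : 0 < K ^ ((1 : ℝ) / 6) * X ^ (1 / 4 + eps) :=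
    mul_pos (Real.rpow_pos_of_pos hK0 _) (Real.rpow_pos_of_pos hX0 _)
  have p3 : 0 < K / √X := by positivity
  have e34 : √K * √(√K) ≤ K ^ (7 / 9 + eps) := by
    have : √K * √(√K) = K ^ ((3 : ℝ) / 4) := by
      rw [Real.sqrt_eq_rpow, Real.sqrt_eq_rpow, ← Real.rpow_mul hK0.le, ← Real.rpow_add hK0]
      norm_num
    rw [this]
    exact Real.rpow_le_rpow_of_exponent_le hK (by linarith)
  have hq1 : 1 ≤ √(√K) := Real.one_le_sqrt.mpr hsK
  have e12 : √K ≤ K ^ (7 / 9 + eps) := by nlinarith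
  rcases le_or_gt X (4 * √K) with hc | hc
  · have h1 := small_part K X hK hX a m b n hm hn
    refine h1.trans ?_
    have h2 : X ≤ 8 * (K / √X) := by
      have h3 : √X ≤ 2 * √(√K) := by
        rw [show (2 : ℝ) = √4 by rw [show (4 : ℝ) = 2 ^ 2 by norm_num, Real.sqrt_sq (by norm_num)],
          ← Real.sqrt_mul (by norm_num)]
        exact Real.sqrt_le_sqrt hc
      rw [← mul_div_assoc, le_div_iff₀ hsX0]
      have h4 : √(√K) ≤ √K := by
        have := Real.sq_sqrt (Real.sqrt_nonneg K)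
        nlinarith
      calc X * √X ≤ (4 * √K) * (2 * √(√K)) := by gcongr
        _ ≤ (4 * √K) * (2 * √K) := by gcongr
        _ = 8 * √K ^ 2 := by ring
        _ = 8 * K := by rw [hsK2]
    nlinarith
  · have h1 := small_part K (4 * √K) hK (by
      calc K ^ ((1 : ℝ) / 3) ≤ K ^ ((1 : ℝ) / 2) :=
            Real.rpow_le_rpow_of_exponent_le hK (by norm_num)
        _ = √K := (Real.sqrt_eq_rpow K).symm
        _ ≤ 4 * √K := by linarith) a m b n hm hn
    have h2 := h K X hK hX1 a m b n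
    have hsub : pts K (4 * √K) a m b n ⊆ pts K X a m b n := by
      rintro p ⟨h3, h4, h5, h6, h7⟩
      exact ⟨h3, h4, h5.trans hc.le, h6, h7⟩
    have h3 : ((pts K X a m b n).ncard : ℝ) = ((pts K X a m b n \ pts K (4 * √K) a m b n).ncard : ℝ)
        + ((pts K (4 * √K) a m b n).ncard : ℝ) := by
      have := Set.ncard_sdiff_add_ncard_of_subset hsub (pts_finite K X a m b n)
      exact_mod_cast this.symm
    have h4 : K / √(4 * √K) ≤ √K * √(√K) := by
      have e : √(4 * √K) = 2 * √(√K) := by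
        rw [Real.sqrt_mul (by norm_num), show (4 : ℝ) = 2 ^ 2 by norm_num,
          Real.sqrt_sq (by norm_num)]
      have hq0 : 0 < √(√K) := by linarith
      have hq2 : √(√K) ^ 2 = √K := Real.sq_sqrt (Real.sqrt_nonneg K)
      rw [e, div_le_iff₀ (by positivity)]
      nlinarith
    have h5 : (0 : ℝ) ≤ ((pts K X a m b n \ pts K (4 * √K) a m b n).ncard : ℝ) := by positivity
    have h6 := abs_le.mp h1
    have h7 : 9 * √K + 8 * (K / √(4 * √K)) + 12 * (4 * √K) ≤ 65 * K ^ (7 / 9 + eps) := by linarith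
    have h8 : C * (K ^ (7 / 9 + eps) + K ^ ((1 : ℝ) / 6) * X ^ (1 / 4 + eps)) + 65 * K ^ (7 / 9 + eps)
        ≤ (C + 210) * (K ^ (7 / 9 + eps) + K ^ ((1 : ℝ) / 6) * X ^ (1 / 4 + eps) + K / √X) := by
      nlinarith
    rw [h3, abs_le]
    constructor
    · linarith [h6.1]
    · linarith [h6.2]

end Pool.Agent.H460.MP
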